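import Mathlib

/-!
# Quasihomogeneous hypersurfaces, polynomial curves and `ℂˣ`-actions: definitions
-/

namespace Pool.Agent.H750E

open Polynomial

/-- The affine hypersurface `{p = 0}` in `ℂⁿ`. -/
def Hyp {n : ℕ} (p : MvPolynomial (Fin n) ℂ) : Set (Fin n → ℂ) :=
  {x | MvPolynomial.eval x p = 0}

/-- The point with parameter `t` of the polynomial curve `γ : ℂ → ℂⁿ`. -/
noncomputable def curveAt {n : ℕ} (γ : Fin n → ℂ[X]) (t : ℂ) : Fin n → ℂ :=
  fun i => (γ i).eval t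

/-- The Zariski closure of a subset of `ℂⁿ`: all points at which every polynomial vanishing on
the subset vanishes. -/
def zariskiClosure {n : ℕ} (S : Set (Fin n → ℂ)) : Set (Fin n → ℂ) :=
  {y | ∀ F : MvPolynomial (Fin n) ℂ, (∀ x ∈ S, MvPolynomial.eval x F = 0) →
    MvPolynomial.eval y F = 0}

/-- A regular algebraic action of `ℂˣ` on an algebraic subset `X` of `ℂⁿ`: an action such that the
coordinates of `s • x` are given on `ℂˣ × X` by polynomials in `s, x` divided by a power of `s`. -/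
structure CstarAction {n : ℕ} (X : Set (Fin n → ℂ)) where
  /-- the action map -/
  act : ℂˣ → (Fin n → ℂ) → (Fin n → ℂ)
  mapsTo : ∀ s, ∀ x ∈ X, act s x ∈ X
  one_act : ∀ x ∈ X, act 1 x = x
  mul_act : ∀ s s', ∀ x ∈ X, act (s * s') x = act s (act s' x)
  regular : ∃ (N : ℕ) (P : Fin n → (MvPolynomial (Fin n) ℂ)[X]), ∀ s : ℂˣ, ∀ x ∈ X, ∀ i,
    (s : ℂ) ^ N * act s x i = ((P i).map (MvPolynomial.eval x)).eval (s : ℂ)

/-- The orbit of a point. -/
def CstarAction.orbit {n : ℕ} {X : Set (Fin n → ℂ)} (α : CstarAction X) (a : Fin n → ℂ) :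
    Set (Fin n → ℂ) :=
  {y | ∃ s : ℂˣ, y = α.act s a}

/-- The property of Question 2: there is a non-constant polynomial map `ℂ → X` whose image is not
the Zariski closure of an orbit of any regular algebraic `ℂˣ`-action on `X`. -/
def HasExoticCurve {n : ℕ} (X : Set (Fin n → ℂ)) : Prop :=
  ∃ γ : Fin n → ℂ[X], (∀ t, curveAt γ t ∈ X) ∧ (∃ t t', curveAt γ t ≠ curveAt γ t') ∧
    ∀ α : CstarAction X, ∀ a ∈ X, Set.range (curveAt γ) ≠ zariskiClosure (α.orbit a)

/-- The action `(s • x)_i = s ^ (w i) * x_i` of `ℂˣ` on `ℂⁿ` with weights `w`. -/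
noncomputable def wact {n : ℕ} (w : Fin n → ℕ) (s : ℂˣ) (x : Fin n → ℂ) : Fin n → ℂ :=
  fun i => (s : ℂ) ^ w i * x i

/-- There is a polynomial map `ℂ → X` which meets two different orbits, other than the origin, of
the weighted action `wact w`. -/
def MeetsTwoOrbits {n : ℕ} (w : Fin n → ℕ) (X : Set (Fin n → ℂ)) : Prop :=
  ∃ γ : Fin n → ℂ[X], (∀ t, curveAt γ t ∈ X) ∧
    ∃ t₁ t₂, curveAt γ t₁ ≠ 0 ∧ curveAt γ t₂ ≠ 0 ∧ ∀ s : ℂˣ, curveAt γ t₂ ≠ wact w s (curveAt γ t₁)

/-- The weighted projective hypersurface `{p = 0} ⊂ ℙ(w)` contains a rational curve: it has a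
non-constant point over the field `ℂ(t)`. Such a point has homogeneous coordinates `f i ∈ ℂ(t)`,
not all zero, and it is non-constant if and only if some quotient
`(f i) ^ (w j) / (f j) ^ (w i)` is not a constant. -/
def HasRationalCurve {n : ℕ} (w : Fin n → ℕ) (p : MvPolynomial (Fin n) ℂ) : Prop :=
  ∃ f : Fin n → RatFunc ℂ, MvPolynomial.aeval f p = 0 ∧
    ∃ i j, f j ≠ 0 ∧ ∀ c : ℂ, f i ^ w j / f j ^ w i ≠ RatFunc.C c

end Pool.Agent.H750E
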