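import Mathlib

/-!
# Multiplicative families of complex polynomials over a sub-semigroup of `ℕ`
-/

namespace Pool.Agent.H750E

open Polynomial

/-- A multiplicative family of non-zero polynomials indexed by a submonoid of `ℕ` consists of
powers of one polynomial. -/
theorem exists_root (K : AddSubmonoid ℕ) (Y : ℕ → ℂ[X]) (h0 : Y 0 = 1)
    (hadd : ∀ k ∈ K, ∀ l ∈ K, Y (k + l) = Y k * Y l) (hne : ∀ k ∈ K, Y k ≠ 0) :
    ∃ (e : ℕ) (Q : ℂ[X]), 0 < e ∧ (∀ k ∈ K, e ∣ k) ∧ (∀ k ∈ K, Y k = Q ^ (k / e)) ∧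
      ∀ t₁ t₂ : ℂ, (∀ k ∈ K, (Y k).eval t₁ = (Y k).eval t₂) → Q.eval t₁ = Q.eval t₂ := by
  classical
  by_cases hK : ∃ k ∈ K, k ≠ 0
  swap
  · push Not at hK
    refine ⟨1, 0, one_pos, fun k _ => one_dvd k, fun k hk => ?_, fun _ _ _ => by simp⟩
    rw [hK k hk, h0]; simp
  obtain ⟨k₀, hk₀, hk₀0⟩ := hK
  have hD : ∃ d : ℕ, 0 < d ∧ ∃ a ∈ K, ∃ b ∈ K, a = b + d :=
    ⟨k₀, Nat.pos_of_ne_zero hk₀0, k₀, hk₀, 0, K.zero_mem, by simp⟩
  set e := Nat.find hD with he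
  obtain ⟨hepos, a, ha, b, hb, hab⟩ := Nat.find_spec hD
  rw [← he] at hepos hab
  have hmul : ∀ m : ℕ, ∀ k ∈ K, m * k ∈ K := fun m k hk => by
    simpa using K.nsmul_mem hk m
  have hdvd : ∀ k ∈ K, e ∣ k := by
    intro k hk
    by_contra hnd
    have hr : 0 < k % e := Nat.pos_of_ne_zero fun h => hnd (Nat.dvd_of_mod_eq_zero h)
    have hlt : k % e < e := Nat.mod_lt _ hepos
    refine Nat.find_min hD (m := k % e) (by rw [← he]; exact hlt) ⟨hr, k + (k / e) * b,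
      K.add_mem hk (hmul _ _ hb), (k / e) * a, hmul _ _ ha, ?_⟩
    rw [hab]
    have := Nat.div_add_mod k e
    nlinarith
  have hpow : ∀ m : ℕ, ∀ k ∈ K, Y (m * k) = Y k ^ m := by
    intro m k hk
    induction m with
    | zero => simp [h0]
    | succ m ih => rw [Nat.succ_mul, hadd _ (hmul _ _ hk) _ hk, ih, pow_succ]
  have key : ∀ k ∈ K, Y a ^ (k / e) = Y b ^ (k / e) * Y k := by
    intro k hk
    have hke : (k / e) * e = k := Nat.div_mul_cancel (hdvd k hk)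
    rw [← hpow _ _ ha, ← hpow _ _ hb, ← hadd _ (hmul _ _ hb) _ hk]
    congr 1
    rw [hab, mul_add, hke]
  have hYd : Y b ∣ Y a := by
    have h1 := key k₀ hk₀
    have hne' : k₀ / e ≠ 0 := by
      intro h
      have := Nat.div_mul_cancel (hdvd k₀ hk₀)
      rw [h] at this; omega
    exact (UniqueFactorizationMonoid.pow_dvd_pow_iff_dvd hne').1 ⟨_, h1⟩
  obtain ⟨Q, hQ⟩ := hYd
  have hYQ : ∀ k ∈ K, Y k = Q ^ (k / e) := by
    intro k hk
    have h1 := key k hk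
    rw [hQ, mul_pow] at h1
    exact (mul_left_cancel₀ (pow_ne_zero _ (hne b hb)) h1).symm
  refine ⟨e, Q, hepos, hdvd, hYQ, fun t₁ t₂ h => ?_⟩
  have hb12 := h b hb
  have ha12 := h a ha
  by_cases hz : (Y b).eval t₁ = 0
  · have hbe : b / e ≠ 0 := by
      intro h'
      have := Nat.div_mul_cancel (hdvd b hb)
      rw [h'] at this
      have hb0 : b = 0 := by omega
      rw [hb0, h0] at hz
      simp at hz
    have hz2 : (Y b).eval t₂ = 0 := by rw [← hb12]; exact hz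
    rw [hYQ b hb, eval_pow] at hz hz2
    rw [pow_eq_zero_iff hbe |>.1 hz, pow_eq_zero_iff hbe |>.1 hz2]
  · rw [hQ, eval_mul, eval_mul, ← hb12] at ha12
    exact mul_left_cancel₀ hz ha12

end Pool.Agent.H750E
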