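import Mathlib
import Pool.Agent.H750E.Core

/-!
# Curves with two parametrisations: a `ℂˣ`-homogeneous one and a polynomial one
-/

namespace Pool.Agent.H750E

open Polynomial

/-- the character `s ↦ s ^ k` of `ℂˣ`, as a complex valued function -/
noncomputable def chi (k : ℤ) : ℂˣ → ℂ := fun s => ((s ^ k : ℂˣ) : ℂ)

theorem chi_apply (k : ℤ) (s : ℂˣ) : chi k s = ((s ^ k : ℂˣ) : ℂ) := rfl

theorem chi_zero : chi 0 = 1 := by
  funext s; simp [chi]

theorem chi_add (k l : ℤ) : chi (k + l) = chi k * chi l := by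
  funext s; simp [chi, zpow_add]

theorem chi_mul_apply (k : ℤ) (c s : ℂˣ) : chi k (c * s) = chi k c * chi k s := by
  simp [chi, mul_zpow]

theorem chi_inv_apply (k : ℤ) (s : ℂˣ) : chi k s⁻¹ = chi (-k) s := by
  simp [chi]

theorem chi_ne_zero_apply (k : ℤ) (s : ℂˣ) : chi k s ≠ 0 := Units.ne_zero _

/-- the unit `2` of `ℂ` -/
noncomputable def two : ℂˣ := Units.mk0 2 two_ne_zero

theorem chi_two (k : ℤ) : chi k two = (2 : ℂ) ^ k := by
  simp [chi, two]

theorem chi_two_injective : Function.Injective (fun k : ℤ => chi k two) := by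
  intro k l h
  simp only [chi_two] at h
  have h2 : ((2 : ℝ) : ℂ) ^ k = ((2 : ℝ) : ℂ) ^ l := by simpa using h
  have h3 : (2 : ℝ) ^ k = (2 : ℝ) ^ l := by exact_mod_cast h2
  exact zpow_right_injective₀ (by norm_num) (by norm_num) h3

/-- A translation invariant space of functions on `ℂˣ` contains every character occurring in a
finite combination of characters which it contains. -/
theorem chi_mem_of_sum_mem (R : Submodule ℂ (ℂˣ → ℂ))
    (hR : ∀ f ∈ R, (fun s => f (two * s)) ∈ R) :
    ∀ (n : ℕ) (S : Finset ℤ) (l : ℤ → ℂ), S.card = n → (∀ k ∈ S, l k ≠ 0) →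
      (∑ k ∈ S, l k • chi k) ∈ R → ∀ k ∈ S, chi k ∈ R := by
  intro n
  induction n with
  | zero =>
    intro S l hS _ _ k hk
    rw [Finset.card_eq_zero] at hS
    simp [hS] at hk
  | succ n ih =>
    intro S l hS hl hmem k hk
    by_cases hone : ∀ k' ∈ S, k' = k
    · have hSk : S = {k} := by
        ext x; simp only [Finset.mem_singleton]
        exact ⟨hone x, fun h => h ▸ hk⟩
      rw [hSk, Finset.sum_singleton] at hmem
      have := R.smul_mem (l k)⁻¹ hmem
      rwa [smul_smul, inv_mul_cancel₀ (hl k hk), one_smul] at this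
    · push Not at hone
      obtain ⟨k', hk', hkk'⟩ := hone
      refine ih (S.erase k') (fun j => l j * (chi j two - chi k' two)) ?_ ?_ ?_ k
        (Finset.mem_erase.2 ⟨fun h => hkk' h.symm, hk⟩)
      · rw [Finset.card_erase_of_mem hk', hS]; simp
      · intro j hj
        have hj' := Finset.mem_erase.1 hj
        refine mul_ne_zero (hl j hj'.2) (sub_ne_zero.2 fun h => hj'.1 (chi_two_injective h))
      · have h1 := R.sub_mem (hR _ hmem) (R.smul_mem (chi k' two) hmem)
        have h2 : (fun s => (∑ k ∈ S, l k • chi k) (two * s)) - chi k' two • ∑ k ∈ S, l k • chi k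
            = ∑ j ∈ S.erase k', (l j * (chi j two - chi k' two)) • chi j := by
          rw [← Finset.sum_erase_add S _ hk']
          funext s
          simp only [Pi.sub_apply, Finset.sum_apply, Pi.add_apply, Pi.smul_apply, smul_eq_mul,
            chi_mul_apply]
          have : ∀ j, l j * (chi j two - chi k' two) * chi j s
              = l j * (chi j two * chi j s) - chi k' two * (l j * chi j s) := fun j => by ring
          simp only [this, Finset.sum_sub_distrib, mul_add, Finset.mul_sum]
          ring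
        rwa [h2] at h1

variable {σ : Type*}

/-- the pull back of polynomials along the map `o` -/
noncomputable def Theta (o : ℂˣ → σ → ℂ) : MvPolynomial σ ℂ →ₐ[ℂ] (ℂˣ → ℂ) :=
  MvPolynomial.aeval fun i s => o s i

theorem Theta_apply (o : ℂˣ → σ → ℂ) (F : MvPolynomial σ ℂ) (s : ℂˣ) :
    Theta o F s = MvPolynomial.eval (o s) F := by
  induction F using MvPolynomial.induction_on with
  | C a => simp [Theta]
  | add p q hp hq => simp only [map_add, Pi.add_apply, hp, hq]
  | mul_X p i hp => simp only [map_mul, Pi.mul_apply, hp]; simp [Theta]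

/-- The finite combinations of characters, as a subalgebra. -/
theorem Theta_mem_span (o : ℂˣ → σ → ℂ)
    (ho : ∀ i, (fun s => o s i) ∈ Submodule.span ℂ (Set.range chi)) (F : MvPolynomial σ ℂ) :
    Theta o F ∈ Submodule.span ℂ (Set.range chi) := by
  have hmul : ∀ f ∈ Submodule.span ℂ (Set.range chi), ∀ g ∈ Submodule.span ℂ (Set.range chi),
      f * g ∈ Submodule.span ℂ (Set.range chi) := by
    intro f hf g hg
    induction hf using Submodule.span_induction with
    | mem x hx =>
      obtain ⟨k, rfl⟩ := hx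
      induction hg using Submodule.span_induction with
      | mem y hy =>
        obtain ⟨l, rfl⟩ := hy
        exact Submodule.subset_span ⟨k + l, chi_add k l⟩
      | zero => simp
      | add a b _ _ ha hb => rw [mul_add]; exact Submodule.add_mem _ ha hb
      | smul a b _ hb => rw [mul_smul_comm]; exact Submodule.smul_mem _ _ hb
    | zero => simp
    | add a b _ _ ha hb => rw [add_mul]; exact Submodule.add_mem _ ha hb
    | smul a b _ hb => rw [smul_mul_assoc]; exact Submodule.smul_mem _ _ hb
  induction F using MvPolynomial.induction_on with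
  | C a =>
    have : Theta o (MvPolynomial.C a) = a • chi 0 := by
      funext s; simp [Theta, chi_zero]
    rw [this]
    exact Submodule.smul_mem _ _ (Submodule.subset_span ⟨0, rfl⟩)
  | add p q hp hq => rw [map_add]; exact Submodule.add_mem _ hp hq
  | mul_X p i hp =>
    rw [map_mul]
    refine hmul _ hp _ ?_
    have : Theta o (MvPolynomial.X i) = fun s => o s i := by simp [Theta]
    rw [this]; exact ho i

theorem eval_aeval_poly (g : σ → ℂ[X]) (F : MvPolynomial σ ℂ) (t : ℂ) :
    (MvPolynomial.aeval g F).eval t = MvPolynomial.eval (fun i => (g i).eval t) F := by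
  induction F using MvPolynomial.induction_on with
  | C a => simp
  | add p q hp hq => simp only [map_add, eval_add, hp, hq]
  | mul_X p i hp => simp only [map_mul, eval_mul, hp]; simp

theorem exists_param_pos (o : ℂˣ → σ → ℂ) (g : σ → ℂ[X])
    (ho : ∀ i, (fun s => o s i) ∈ Submodule.span ℂ (Set.range chi))
    (hstab : ∀ c : ℂˣ, ∀ F : MvPolynomial σ ℂ, ∃ F' : MvPolynomial σ ℂ, ∀ s,
      MvPolynomial.eval (o s) F' = MvPolynomial.eval (o (c * s)) F)
    (hker : ∀ F : MvPolynomial σ ℂ, Theta o F = 0 ↔ MvPolynomial.aeval g F = 0)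
    (hpos : ∀ k : ℤ, (∃ F, Theta o F = chi k) → 0 ≤ k) :
    ∃ Q : ℂ[X], (∀ F : MvPolynomial σ ℂ, ∃ G : ℂ[X], MvPolynomial.aeval g F = G.comp Q) ∧
      ∀ t₁ t₂ : ℂ, (∀ i, (g i).eval t₁ = (g i).eval t₂) → Q.eval t₁ = Q.eval t₂ := by
  classical
  have hker' : ∀ F F' : MvPolynomial σ ℂ, Theta o F = Theta o F' →
      MvPolynomial.aeval g F = MvPolynomial.aeval g F' := by
    intro F F' h
    have := (hker (F - F')).1 (by rw [map_sub, h, sub_self])
    rwa [map_sub, sub_eq_zero] at this
  let Y : ℕ → ℂ[X] := fun k =>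
    if h : ∃ F, Theta o F = chi (k : ℤ) then MvPolynomial.aeval g h.choose else 0
  have hY : ∀ (k : ℕ) (F : MvPolynomial σ ℂ), Theta o F = chi (k : ℤ) →
      Y k = MvPolynomial.aeval g F := by
    intro k F hF
    have h : ∃ F, Theta o F = chi (k : ℤ) := ⟨F, hF⟩
    simp only [Y, dif_pos h]
    exact hker' _ _ (h.choose_spec.trans hF.symm)
  let K : AddSubmonoid ℕ :=
    { carrier := {k | ∃ F, Theta o F = chi (k : ℤ)}
      zero_mem' := ⟨1, by simp [chi_zero]⟩
      add_mem' := by
        rintro a b ⟨F, hF⟩ ⟨F', hF'⟩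
        exact ⟨F * F', by rw [map_mul, hF, hF', ← chi_add]; norm_cast⟩ }
  have hKmem : ∀ k : ℕ, k ∈ K ↔ ∃ F, Theta o F = chi (k : ℤ) := fun k => Iff.rfl
  have hY0 : Y 0 = 1 := by
    rw [hY 0 1 (by simp [chi_zero])]; simp
  have hYadd : ∀ k ∈ K, ∀ l ∈ K, Y (k + l) = Y k * Y l := by
    rintro k ⟨F, hF⟩ l ⟨F', hF'⟩
    rw [hY k F hF, hY l F' hF', ← map_mul]
    exact hY _ _ (by rw [map_mul, hF, hF', ← chi_add]; norm_cast)
  have hYne : ∀ k ∈ K, Y k ≠ 0 := by
    rintro k ⟨F, hF⟩ h
    rw [hY k F hF, ← hker, hF] at h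
    exact chi_ne_zero_apply k 1 (congrFun h 1)
  obtain ⟨e, Q, he, hdvd, hYQ, hQ⟩ := exists_root K Y hY0 hYadd hYne
  refine ⟨Q, fun F => ?_, fun t₁ t₂ h => hQ t₁ t₂ ?_⟩
  · obtain ⟨l, hl⟩ := (Finsupp.mem_span_range_iff_exists_finsupp).1 (Theta_mem_span o ho F)
    have hl' : (∑ k ∈ l.support, l k • chi k) = Theta o F := hl
    have hchi : ∀ k ∈ l.support, ∃ F', Theta o F' = chi k := by
      intro k hk
      have := chi_mem_of_sum_mem (LinearMap.range (Theta o).toLinearMap) ?_ _ l.support l rfl
        (fun k hk => Finsupp.mem_support_iff.1 hk) (by rw [hl']; exact ⟨F, rfl⟩) k hk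
      · exact this
      · rintro f ⟨F', hF'⟩
        obtain ⟨F'', hF''⟩ := hstab two F'
        refine ⟨F'', ?_⟩
        funext s
        have h1 : f (two * s) = Theta o F' (two * s) := by rw [← hF']; rfl
        rw [h1, Theta_apply, ← hF'' s]
        exact Theta_apply o F'' s
    choose! Fk hFk using hchi
    refine ⟨∑ k ∈ l.support, Polynomial.C (l k) * X ^ (k.toNat / e), ?_⟩
    have h1 : MvPolynomial.aeval g F
        = MvPolynomial.aeval g (∑ k ∈ l.support, l k • Fk k) := by
      apply hker'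
      rw [map_sum, ← hl']
      exact Finset.sum_congr rfl fun k hk => by rw [map_smul, hFk k hk]
    rw [h1, map_sum, ← Polynomial.coe_compRingHom_apply, map_sum]
    refine Finset.sum_congr rfl fun k hk => ?_
    have hk0 : 0 ≤ k := hpos k ⟨_, hFk k hk⟩
    have hkn : ((k.toNat : ℕ) : ℤ) = k := Int.toNat_of_nonneg hk0
    have h2 : Theta o (Fk k) = chi ((k.toNat : ℕ) : ℤ) := by rw [hkn]; exact hFk k hk
    rw [map_smul, ← hY k.toNat (Fk k) h2, hYQ _ ⟨_, h2⟩, Polynomial.smul_eq_C_mul]
    simp
  · rintro k ⟨F, hF⟩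
    rw [hY k F hF]
    rw [eval_aeval_poly, eval_aeval_poly, funext h]

theorem Theta_inv (o : ℂˣ → σ → ℂ) (F : MvPolynomial σ ℂ) (s : ℂˣ) :
    Theta (fun s => o s⁻¹) F s = Theta o F s⁻¹ := by
  rw [Theta_apply, Theta_apply]

/-- A curve which is at the same time a `ℂˣ`-homogeneous curve (`s ↦ o s`) and a polynomial curve
(`t ↦ g t`): the polynomial parametrisation factors through a polynomial `Q` which identifies any
two parameters with the same image. -/
theorem exists_param (o : ℂˣ → σ → ℂ) (g : σ → ℂ[X])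
    (ho : ∀ i, (fun s => o s i) ∈ Submodule.span ℂ (Set.range chi))
    (hstab : ∀ c : ℂˣ, ∀ F : MvPolynomial σ ℂ, ∃ F' : MvPolynomial σ ℂ, ∀ s,
      MvPolynomial.eval (o s) F' = MvPolynomial.eval (o (c * s)) F)
    (hker : ∀ F : MvPolynomial σ ℂ, Theta o F = 0 ↔ MvPolynomial.aeval g F = 0) :
    ∃ Q : ℂ[X], (∀ F : MvPolynomial σ ℂ, ∃ G : ℂ[X], MvPolynomial.aeval g F = G.comp Q) ∧
      ∀ t₁ t₂ : ℂ, (∀ i, (g i).eval t₁ = (g i).eval t₂) → Q.eval t₁ = Q.eval t₂ := by
  classical
  by_cases hpos : ∀ k : ℤ, (∃ F, Theta o F = chi k) → 0 ≤ k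
  · exact exists_param_pos o g ho hstab hker hpos
  push Not at hpos
  obtain ⟨k, ⟨F, hF⟩, hk⟩ := hpos
  have hneg : ∀ l : ℤ, (∃ F, Theta o F = chi l) → l ≤ 0 := by
    rintro l ⟨F', hF'⟩
    by_contra hl
    push Not at hl
    -- `chi (l * (-k))` and `chi (k * l)` are mutually inverse
    have hFl : Theta o (F ^ l.toNat) = chi (k * l) := by
      rw [map_pow, hF]
      funext s
      simp only [Pi.pow_apply, chi_apply, ← Units.val_pow_eq_pow_val]
      congr 1
      rw [zpow_mul]
      conv_rhs => rw [← Int.toNat_of_nonneg hl.le]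
      rw [zpow_natCast]
    have hFk : Theta o (F' ^ (-k).toNat) = chi (-(k * l)) := by
      rw [map_pow, hF']
      funext s
      simp only [Pi.pow_apply, chi_apply, ← Units.val_pow_eq_pow_val]
      congr 1
      have : -(k * l) = l * ((-k).toNat : ℤ) := by
        rw [Int.toNat_of_nonneg (by omega)]; ring
      rw [this, zpow_mul, zpow_natCast]
    have hprod : MvPolynomial.aeval g (F ^ l.toNat) * MvPolynomial.aeval g (F' ^ (-k).toNat)
        = 1 := by
      have h1 : MvPolynomial.aeval g (F ^ l.toNat * F' ^ (-k).toNat - 1) = 0 := by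
        rw [← hker, map_sub, map_mul, hFl, hFk, ← chi_add, add_neg_cancel, chi_zero, map_one,
          sub_self]
      rw [map_sub, map_mul, map_one, sub_eq_zero] at h1
      exact h1
    have hunit : IsUnit (MvPolynomial.aeval g (F ^ l.toNat)) := IsUnit.of_mul_eq_one _ hprod
    obtain ⟨c, -, hc⟩ := Polynomial.isUnit_iff.1 hunit
    have h2 : Theta o (F ^ l.toNat - MvPolynomial.C c) = 0 := by
      rw [hker, map_sub, ← hc]; simp
    rw [map_sub, sub_eq_zero, hFl] at h2
    have h3 : ∀ s, chi (k * l) s = c := fun s => by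
      rw [h2, Theta_apply]; simp
    have h4 : chi (k * l) two = chi 0 two := by
      rw [h3, ← h3 1, chi_zero]; simp [chi_apply]
    have h5 := chi_two_injective h4
    rcases mul_eq_zero.1 h5 with h | h <;> omega
  refine exists_param_pos (fun s => o s⁻¹) g ?_ ?_ ?_ ?_
  · intro i
    obtain ⟨l, hl⟩ := (Finsupp.mem_span_range_iff_exists_finsupp).1 (ho i)
    have hl' : (∑ k ∈ l.support, l k • chi k) = fun s => o s i := hl
    have : (fun s => (fun s => o s⁻¹) s i) = ∑ k ∈ l.support, l k • chi (-k) := by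
      funext s
      have := congrFun hl' s⁻¹
      simp only [Finset.sum_apply, Pi.smul_apply, chi_inv_apply] at this ⊢
      exact this.symm
    rw [this]
    exact Submodule.sum_mem _ fun k _ => Submodule.smul_mem _ _ (Submodule.subset_span ⟨-k, rfl⟩)
  · intro c F
    obtain ⟨F', hF'⟩ := hstab c⁻¹ F
    refine ⟨F', fun s => ?_⟩
    have := hF' s⁻¹
    simp only [mul_inv]
    exact this
  · intro F
    rw [← hker F]
    constructor
    · intro h
      funext s
      have := congrFun h s⁻¹
      rw [Theta_inv, inv_inv] at this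
      exact this
    · intro h
      funext s
      rw [Theta_inv, h]; rfl
  · rintro l ⟨F', hF'⟩
    have : Theta o F' = chi (-l) := by
      funext s
      have := congrFun hF' s⁻¹
      rw [Theta_inv, inv_inv, chi_inv_apply] at this
      exact this
    have := hneg (-l) ⟨F', this⟩
    omega

end Pool.Agent.H750E
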