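import Mathlib
import Pool.Agent.H750E.Defs
import Pool.Agent.H750E.Orbit

/-!
# The image of a non-constant polynomial curve is closed
-/

namespace Pool.Agent.H750E

open Polynomial

theorem exists_ne_of_nonconst {n : ℕ} {γ : Fin n → ℂ[X]}
    (h : ∃ t t', curveAt γ t ≠ curveAt γ t') : ∃ i, (γ i).natDegree ≠ 0 := by
  by_contra hc
  push Not at hc
  obtain ⟨t, t', htt⟩ := h
  refine htt (funext fun i => ?_)
  rw [curveAt, curveAt, Polynomial.eq_C_of_natDegree_eq_zero (hc i)]
  simp

theorem nonconst_of_natDegree {n : ℕ} {γ : Fin n → ℂ[X]} {i : Fin n}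
    (h : (γ i).natDegree ≠ 0) : ∃ t t', curveAt γ t ≠ curveAt γ t' := by
  by_contra hc
  push Not at hc
  apply h
  have : γ i = C ((γ i).eval 0) := by
    apply Polynomial.funext
    intro t
    have := congrFun (hc t 0) i
    simpa [curveAt] using this
  rw [this]; simp

theorem range_closed {n : ℕ} (γ : Fin n → ℂ[X]) (i₀ : Fin n) (hi₀ : (γ i₀).natDegree ≠ 0)
    (y : Fin n → ℂ) (hy : y ∈ zariskiClosure (Set.range (curveAt γ))) :
    y ∈ Set.range (curveAt γ) := by
  classical
  let _ : Algebra (MvPolynomial (Fin n) ℂ) ℂ[X] :=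
    (MvPolynomial.aeval γ : MvPolynomial (Fin n) ℂ →ₐ[ℂ] ℂ[X]).toRingHom.toAlgebra
  have halg : ∀ F, algebraMap (MvPolynomial (Fin n) ℂ) ℂ[X] F = MvPolynomial.aeval γ F :=
    fun F => rfl
  have hX : IsIntegral (MvPolynomial (Fin n) ℂ) (X : ℂ[X]) := by
    have hγ0 : γ i₀ ≠ 0 := by
      intro h; rw [h] at hi₀; simp at hi₀
    set c : ℂ := (γ i₀).leadingCoeff⁻¹ with hc
    have hmon : (((γ i₀) * C c).map (MvPolynomial.C (σ := Fin n))).Monic :=
      (Polynomial.monic_mul_leadingCoeff_inv hγ0).map _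
    have hdeg : 0 < (((γ i₀) * C c).map (MvPolynomial.C (σ := Fin n))).degree := by
      rw [Polynomial.degree_map_eq_of_injective (MvPolynomial.C_injective _ _)]
      rw [← Polynomial.natDegree_pos_iff_degree_pos]
      rw [Polynomial.natDegree_mul_C (inv_ne_zero (leadingCoeff_ne_zero.2 hγ0))]
      omega
    refine ⟨_, hmon.sub_of_left (q := C (MvPolynomial.X i₀ * MvPolynomial.C c))
      (lt_of_le_of_lt Polynomial.degree_C_le hdeg), ?_⟩
    rw [eval₂_sub, eval₂_C, halg, eval₂_map]
    have h1 : (algebraMap (MvPolynomial (Fin n) ℂ) ℂ[X]).comp (MvPolynomial.C (σ := Fin n))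
        = Polynomial.C := by
      ext a
      rw [RingHom.comp_apply, halg]
      simp
    rw [h1, Polynomial.eval₂_C_X]
    simp
  have : Algebra.IsIntegral (MvPolynomial (Fin n) ℂ) ℂ[X] := by
    refine ⟨fun f => ?_⟩
    induction f using Polynomial.induction_on' with
    | add p q hp hq => exact hp.add hq
    | monomial m a =>
      rw [← Polynomial.C_mul_X_pow_eq_monomial]
      refine IsIntegral.mul ?_ (hX.pow m)
      have : (C a : ℂ[X]) = algebraMap (MvPolynomial (Fin n) ℂ) ℂ[X] (MvPolynomial.C a) := by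
        rw [halg]; simp
      rw [this]
      exact isIntegral_algebraMap
  let P : Ideal (MvPolynomial (Fin n) ℂ) := RingHom.ker (MvPolynomial.eval y)
  have : P.IsPrime := RingHom.ker_isPrime _
  obtain ⟨Q, -, hQ, hQP⟩ := Ideal.exists_ideal_over_prime_of_isIntegral P (⊥ : Ideal ℂ[X]) (by
    intro F hF
    rw [Ideal.mem_comap, halg, Ideal.mem_bot] at hF
    refine hy F ?_
    rintro _ ⟨t, rfl⟩
    have := eval_aeval_poly γ F t
    rw [hF] at this
    rw [eval_zero] at this
    exact this.symm)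
  have hmem : ∀ i, γ i - C (y i) ∈ Q := by
    intro i
    have h1 : MvPolynomial.X i - MvPolynomial.C (y i) ∈ P := by
      simp [P, RingHom.mem_ker]
    rw [← hQP, Ideal.mem_comap, halg] at h1
    simpa using h1
  obtain ⟨f, hf⟩ := (IsPrincipalIdealRing.principal Q).principal
  have hf0 : f ≠ 0 := by
    rintro rfl
    have h1 := hmem i₀
    rw [hf] at h1
    simp only [Ideal.submodule_span_eq, Ideal.mem_bot, Set.singleton_zero, Ideal.span_zero] at h1
    rw [sub_eq_zero] at h1
    rw [h1] at hi₀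
    simp at hi₀
  have hfu : ¬ IsUnit f := by
    intro hu
    apply hQ.ne_top
    rw [hf]
    exact Ideal.span_singleton_eq_top.2 hu
  have hdeg : f.degree ≠ 0 := fun h => hfu (Polynomial.isUnit_iff_degree_eq_zero.2 h)
  obtain ⟨q, hq⟩ := IsAlgClosed.exists_root f hdeg
  refine ⟨q, funext fun i => ?_⟩
  have h1 := hmem i
  rw [hf] at h1
  obtain ⟨g, hg⟩ := Ideal.mem_span_singleton'.1 h1
  have h2 := congrArg (Polynomial.eval q) hg
  rw [eval_mul, hq.eq_zero, mul_zero, eval_sub, eval_C] at h2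
  rw [curveAt]
  exact (sub_eq_zero.1 h2.symm)

end Pool.Agent.H750E
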