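import Mathlib
import Pool.Agent.H750E.Core

/-!
# Polynomial families with constant weighted quotients
-/

namespace Pool.Agent.H750E

open Polynomial

theorem exists_common_nonroot {n : ℕ} (γ : Fin n → ℂ[X]) :
    ∃ t₀ : ℂ, ∀ i, γ i ≠ 0 → (γ i).eval t₀ ≠ 0 := by
  classical
  by_contra hc
  push Not at hc
  have h1 : (∏ i ∈ Finset.univ.filter (fun i => γ i ≠ 0), γ i) = 0 := by
    apply Polynomial.funext
    intro t
    obtain ⟨i, hi, hi'⟩ := hc t
    rw [Polynomial.eval_prod, eval_zero]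
    exact Finset.prod_eq_zero (Finset.mem_filter.2 ⟨Finset.mem_univ i, hi⟩) hi'
  rw [Finset.prod_eq_zero_iff] at h1
  obtain ⟨i, hi, hi'⟩ := h1
  exact (Finset.mem_filter.1 hi).2 hi'

theorem eq_of_pow_eq {N : ℕ} (hN : N ≠ 0) {U V : ℂ[X]} (h : U ^ N = V ^ N) {t₀ : ℂ}
    (hU : U.eval t₀ = 1) (hV : V.eval t₀ = 1) : U = V := by
  have h1 : U ∣ V := (UniqueFactorizationMonoid.pow_dvd_pow_iff_dvd hN).1 ⟨1, by rw [h, mul_one]⟩
  have h2 : V ∣ U := (UniqueFactorizationMonoid.pow_dvd_pow_iff_dvd hN).1 ⟨1, by rw [h, mul_one]⟩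
  obtain ⟨u, hu⟩ := associated_of_dvd_dvd h1 h2
  obtain ⟨c, -, hc⟩ := Polynomial.isUnit_iff.1 u.isUnit
  rw [← hc] at hu
  have h3 := congrArg (Polynomial.eval t₀) hu
  rw [eval_mul, eval_C, hU, hV, one_mul] at h3
  rw [h3] at hu
  simpa using hu

/-- If all quotients `(γ i) ^ (w j) / (γ j) ^ (w i)` are constant then the curve `γ` runs in one
orbit closure of the weighted action. -/
theorem const_ratio {n : ℕ} (w : Fin n → ℕ) (hw : ∀ i, 0 < w i) (γ : Fin n → ℂ[X])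
    (h : ∀ i j, γ j ≠ 0 → ∃ c : ℂ, γ i ^ w j = C c * γ j ^ w i) :
    ∃ (a : Fin n → ℂ) (e : ℕ) (Q : ℂ[X]), 0 < e ∧ (∃ t₀, ∀ i, a i = (γ i).eval t₀) ∧
      ∀ i, γ i = C (a i) * Q ^ (w i / e) ∧ (a i ≠ 0 → e ∣ w i) := by
  classical
  obtain ⟨t₀, ht₀⟩ := exists_common_nonroot γ
  set a : Fin n → ℂ := fun i => (γ i).eval t₀ with ha
  have ha0 : ∀ i, γ i = 0 → a i = 0 := fun i hi => by simp [ha, hi]
  by_cases hI : ∀ i, γ i = 0
  · exact ⟨a, 1, 1, one_pos, ⟨t₀, fun i => rfl⟩, fun i =>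
      ⟨by rw [hI i, ha0 i (hI i)]; simp, fun _ => one_dvd _⟩⟩
  push Not at hI
  obtain ⟨j₀, hj₀⟩ := hI
  let F : Fin n → ℂ[X] := fun i => C (a i)⁻¹ * γ i
  have hFt : ∀ i, γ i ≠ 0 → (F i).eval t₀ = 1 := by
    intro i hi
    simp only [F, eval_mul, eval_C]
    exact inv_mul_cancel₀ (ht₀ i hi)
  have hFF : ∀ i j, γ i ≠ 0 → γ j ≠ 0 → F i ^ w j = F j ^ w i := by
    intro i j hi hj
    obtain ⟨c, hc⟩ := h i j hj
    have hF1 : F i ^ w j = C ((a i)⁻¹ ^ w j * c / (a j)⁻¹ ^ w i) * F j ^ w i := by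
      simp only [F, mul_pow, hc, ← C_pow]
      rw [← mul_assoc, ← mul_assoc, ← C_mul, ← C_mul]
      congr 2
      have : (a j)⁻¹ ^ w i ≠ 0 := pow_ne_zero _ (inv_ne_zero (ht₀ j hj))
      rw [div_mul_cancel₀ _ this]
    have h2 := congrArg (Polynomial.eval t₀) hF1
    rw [eval_mul, eval_C, eval_pow, eval_pow, hFt i hi, hFt j hj, one_pow, one_pow, mul_one] at h2
    rw [hF1, ← h2]; simp
  let Supp : (Fin n → ℕ) → Prop := fun m => ∀ i, γ i = 0 → m i = 0
  let wt : (Fin n → ℕ) → ℕ := fun m => ∑ i, m i * w i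
  let P : (Fin n → ℕ) → ℂ[X] := fun m => ∏ i, F i ^ m i
  have hP1 : ∀ m, Supp m → P m ^ w j₀ = F j₀ ^ wt m := by
    intro m hm
    simp only [P, wt]
    rw [← Finset.prod_pow, ← Finset.prod_pow_eq_pow_sum]
    refine Finset.prod_congr rfl fun i _ => ?_
    by_cases hi : γ i = 0
    · rw [hm i hi]; simp
    · rw [← pow_mul, mul_comm (m i), pow_mul, hFF i j₀ hi hj₀, ← pow_mul, mul_comm (w i)]
  have hP2 : ∀ m, Supp m → (P m).eval t₀ = 1 := by
    intro m hm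
    simp only [P]
    rw [Polynomial.eval_prod]
    refine Finset.prod_eq_one fun i _ => ?_
    rw [eval_pow]
    by_cases hi : γ i = 0
    · rw [hm i hi]; simp
    · rw [hFt i hi]; simp
  have huniq : ∀ m m', Supp m → Supp m' → wt m = wt m' → P m = P m' := by
    intro m m' hm hm' hmm
    refine eq_of_pow_eq (hw j₀).ne' ?_ (hP2 m hm) (hP2 m' hm')
    rw [hP1 m hm, hP1 m' hm', hmm]
  have hPadd : ∀ m m', P (m + m') = P m * P m' := by
    intro m m'
    simp only [P, Pi.add_apply, pow_add, Finset.prod_mul_distrib]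
  have hwtadd : ∀ m m', wt (m + m') = wt m + wt m' := by
    intro m m'
    simp only [wt, Pi.add_apply, add_mul, Finset.sum_add_distrib]
  have hSadd : ∀ m m', Supp m → Supp m' → Supp (m + m') := by
    intro m m' hm hm' i hi
    simp [hm i hi, hm' i hi]
  let K : AddSubmonoid ℕ :=
    { carrier := {k | ∃ m, Supp m ∧ wt m = k}
      zero_mem' := ⟨0, fun _ _ => rfl, by simp [wt]⟩
      add_mem' := by
        rintro _ _ ⟨m, hm, rfl⟩ ⟨m', hm', rfl⟩
        exact ⟨m + m', hSadd m m' hm hm', hwtadd m m'⟩ }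
  let Y : ℕ → ℂ[X] := fun k => if h : ∃ m, Supp m ∧ wt m = k then P h.choose else 0
  have hY : ∀ m, Supp m → Y (wt m) = P m := by
    intro m hm
    have h' : ∃ m', Supp m' ∧ wt m' = wt m := ⟨m, hm, rfl⟩
    simp only [Y, dif_pos h']
    exact huniq _ _ h'.choose_spec.1 hm h'.choose_spec.2
  obtain ⟨e, Q, he, hdvd, hYQ, -⟩ := exists_root K Y
    (by
      have := hY 0 (fun _ _ => rfl)
      have h0 : wt 0 = 0 := by simp [wt]
      rw [h0] at this
      rw [this]; simp [P])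
    (by
      rintro _ ⟨m, hm, rfl⟩ _ ⟨m', hm', rfl⟩
      rw [← hwtadd, hY _ (hSadd _ _ hm hm'), hY m hm, hY m' hm', hPadd])
    (by
      rintro _ ⟨m, hm, rfl⟩ h0
      rw [hY m hm] at h0
      have := hP2 m hm
      rw [h0] at this
      simp at this)
  have hsingle : ∀ i, γ i ≠ 0 → Supp (Pi.single i 1) ∧ wt (Pi.single i 1) = w i ∧
      P (Pi.single i 1) = F i := by
    intro i hi
    refine ⟨fun j hj => ?_, ?_, ?_⟩
    · by_cases hji : j = i
      · exact absurd (hji ▸ hj) hi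
      · simp [hji]
    · simp [wt, Pi.single_apply]
    · simp only [P]
      rw [Finset.prod_eq_single i]
      · simp
      · intro j _ hj; simp [hj]
      · intro h; exact absurd (Finset.mem_univ i) h
  refine ⟨a, e, Q, he, ⟨t₀, fun i => rfl⟩, fun i => ?_⟩
  by_cases hi : γ i = 0
  · rw [ha0 i hi, hi]; simp
  · obtain ⟨h1, h2, h3⟩ := hsingle i hi
    have hmem : w i ∈ K := ⟨_, h1, h2⟩
    refine ⟨?_, fun _ => hdvd _ hmem⟩
    have h4 := hYQ _ hmem
    rw [← h2, hY _ h1, h3, h2] at h4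
    rw [← h4]
    simp only [F]
    rw [← mul_assoc, ← C_mul, mul_inv_cancel₀ (ht₀ i hi)]
    simp

end Pool.Agent.H750E
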