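import Mathlib
import Pool.Agent.H750E.Defs
import Pool.Agent.H750E.Orbit
import Pool.Agent.H750E.Closed
import Pool.Agent.H750E.Ratio

/-!
# Exotic curves on a quasihomogeneous hypersurface and rational curves on its quotient
-/

namespace Pool.Agent.H750E

open Polynomial

variable {n : ℕ}

/-- Some weighted quotient of the coordinates of `γ` is not constant. -/
def NC (w : Fin n → ℕ) (γ : Fin n → ℂ[X]) : Prop :=
  ∃ i j, γ j ≠ 0 ∧ ∀ c : ℂ, γ i ^ w j ≠ C c * γ j ^ w i

theorem aeval_scale {A : Type*} [CommRing A] [Algebra ℂ A] (w : Fin n → ℕ)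
    (p : MvPolynomial (Fin n) ℂ) (d : ℕ) (hp : p.IsWeightedHomogeneous w d) (D : A)
    (f : Fin n → A) :
    MvPolynomial.aeval (fun i => D ^ w i * f i) p = D ^ d * MvPolynomial.aeval f p := by
  rw [MvPolynomial.aeval_def, MvPolynomial.aeval_def, MvPolynomial.eval₂_eq',
    MvPolynomial.eval₂_eq', Finset.mul_sum]
  refine Finset.sum_congr rfl fun m hm => ?_
  have h1 : Finsupp.weight w m = d := hp (MvPolynomial.mem_support_iff.1 hm)
  have h2 : ∏ i, (D ^ w i * f i) ^ m i = D ^ d * ∏ i, f i ^ m i := by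
    simp only [mul_pow, Finset.prod_mul_distrib, ← pow_mul]
    rw [Finset.prod_pow_eq_pow_sum, ← h1, Finsupp.weight_apply,
      Finsupp.sum_fintype _ _ (fun i => by simp)]
    congr 2
    exact Finset.sum_congr rfl fun i _ => by rw [smul_eq_mul, mul_comm]
  rw [h2]; ring

theorem eval_wact (w : Fin n → ℕ) (p : MvPolynomial (Fin n) ℂ) (d : ℕ)
    (hp : p.IsWeightedHomogeneous w d) (s : ℂˣ) (x : Fin n → ℂ) :
    MvPolynomial.eval (wact w s x) p = (s : ℂ) ^ d * MvPolynomial.eval x p := by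
  have := aeval_scale w p d hp (s : ℂ) x
  rw [MvPolynomial.aeval_eq_eval, MvPolynomial.aeval_eq_eval] at this
  exact this

/-- The standard action on a quasihomogeneous hypersurface. -/
noncomputable def stdAction (w : Fin n → ℕ) (p : MvPolynomial (Fin n) ℂ) (d : ℕ)
    (hp : p.IsWeightedHomogeneous w d) : CstarAction (Hyp p) where
  act := wact w
  mapsTo s x hx := by
    change MvPolynomial.eval _ p = 0
    rw [eval_wact w p d hp, show MvPolynomial.eval x p = 0 from hx, mul_zero]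
  one_act x _ := by funext i; simp [wact]
  mul_act s s' x _ := by funext i; simp [wact, mul_pow, mul_assoc]
  regular := ⟨0, fun i => C (MvPolynomial.X i) * X ^ w i, fun s x _ i => by
    have h : ((C (MvPolynomial.X i) * X ^ w i : (MvPolynomial (Fin n) ℂ)[X]).map
        (MvPolynomial.eval x)).eval (s : ℂ) = x i * (s : ℂ) ^ w i := by simp
    rw [h, pow_zero, one_mul, wact, mul_comm]⟩

theorem curve_mem_iff (p : MvPolynomial (Fin n) ℂ) (γ : Fin n → ℂ[X]) :
    (∀ t, curveAt γ t ∈ Hyp p) ↔ MvPolynomial.aeval γ p = 0 := by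
  constructor
  · intro h
    apply Polynomial.funext
    intro t
    rw [eval_aeval_poly, eval_zero]
    exact h t
  · intro h t
    have := eval_aeval_poly γ p t
    rw [h, eval_zero] at this
    exact this.symm

theorem NC_points {w : Fin n → ℕ} (hw : ∀ i, 0 < w i) {γ : Fin n → ℂ[X]} (h : NC w γ) :
    ∃ i j, γ i ≠ 0 ∧ γ j ≠ 0 ∧ ∃ t₁ t₂ : ℂ,
      ((γ i).eval t₁) ^ w j * ((γ j).eval t₂) ^ w i
        ≠ ((γ i).eval t₂) ^ w j * ((γ j).eval t₁) ^ w i := by
  obtain ⟨i, j, hj, hc⟩ := h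
  have hi : γ i ≠ 0 := by
    intro hi
    apply hc 0
    rw [hi]; simp [(hw j).ne']
  refine ⟨i, j, hi, hj, ?_⟩
  by_contra hcon
  push Not at hcon
  have hjw : γ j ^ w i ≠ 0 := pow_ne_zero _ hj
  obtain ⟨t₂, ht₂⟩ : ∃ t₂, (γ j ^ w i).eval t₂ ≠ 0 := by
    by_contra hh
    push Not at hh
    exact hjw (Polynomial.funext fun t => by rw [hh t, eval_zero])
  rw [eval_pow] at ht₂
  apply hc (((γ i).eval t₂) ^ w j / ((γ j).eval t₂) ^ w i)
  apply Polynomial.funext
  intro t
  rw [eval_mul, eval_C, eval_pow, eval_pow]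
  have := hcon t t₂
  field_simp
  linear_combination this

theorem meets_iff (w : Fin n → ℕ) (hw : ∀ i, 0 < w i) (p : MvPolynomial (Fin n) ℂ) :
    MeetsTwoOrbits w (Hyp p) ↔ ∃ γ : Fin n → ℂ[X], MvPolynomial.aeval γ p = 0 ∧ NC w γ := by
  constructor
  · rintro ⟨γ, hγ, t₁, t₂, h1, h2, hs⟩
    refine ⟨γ, (curve_mem_iff p γ).1 hγ, ?_⟩
    by_contra hnc
    unfold NC at hnc
    push Not at hnc
    obtain ⟨a, e, Q, he, -, hγa⟩ := const_ratio w hw γ hnc
    have hQ : ∀ t, curveAt γ t ≠ 0 → Q.eval t ≠ 0 := by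
      intro t ht hQ
      apply ht
      funext i
      rw [curveAt, (hγa i).1, eval_mul, eval_C, eval_pow, hQ]
      by_cases hai : a i = 0
      · simp [hai]
      · have hd := (hγa i).2 hai
        have : w i / e ≠ 0 := by
          have := Nat.div_pos (Nat.le_of_dvd (hw i) hd) he
          omega
        simp [this]
    obtain ⟨s, hs'⟩ := IsAlgClosed.exists_pow_nat_eq (Q.eval t₂ / Q.eval t₁) he
    have hs0 : s ≠ 0 := by
      rintro rfl
      rw [zero_pow he.ne'] at hs'
      exact div_ne_zero (hQ t₂ h2) (hQ t₁ h1) hs'.symm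
    apply hs (Units.mk0 s hs0)
    funext i
    rw [wact, curveAt, curveAt, (hγa i).1, eval_mul, eval_mul, eval_C, eval_pow, eval_pow,
      Units.val_mk0]
    by_cases hai : a i = 0
    · simp [hai]
    · have hd := (hγa i).2 hai
      have h3 : s ^ w i = (Q.eval t₂ / Q.eval t₁) ^ (w i / e) := by
        rw [← hs', ← pow_mul, Nat.mul_div_cancel' hd]
      rw [h3, div_pow]
      have := pow_ne_zero (w i / e) (hQ t₁ h1)
      rw [eval_C]
      field_simp
  · rintro ⟨γ, hγ, hnc⟩
    obtain ⟨i, j, hi, hj, t₁, t₂, hne⟩ := NC_points hw hnc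
    refine ⟨γ, (curve_mem_iff p γ).2 hγ, t₁, t₂, ?_, ?_, ?_⟩
    · intro h
      have h1 : (γ i).eval t₁ = 0 := congrFun h i
      have h2 : (γ j).eval t₁ = 0 := congrFun h j
      apply hne
      rw [h1, h2, zero_pow (hw j).ne', zero_pow (hw i).ne']; ring
    · intro h
      have h1 : (γ i).eval t₂ = 0 := congrFun h i
      have h2 : (γ j).eval t₂ = 0 := congrFun h j
      apply hne
      rw [h1, h2, zero_pow (hw j).ne', zero_pow (hw i).ne']; ring
    · intro s hs
      have h1 : (γ i).eval t₂ = (s : ℂ) ^ w i * (γ i).eval t₁ := congrFun hs i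
      have h2 : (γ j).eval t₂ = (s : ℂ) ^ w j * (γ j).eval t₁ := congrFun hs j
      apply hne
      rw [h1, h2, mul_pow, mul_pow, ← pow_mul, ← pow_mul, mul_comm (w i) (w j)]
      ring

end Pool.Agent.H750E
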