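import Mathlib
import Pool.Agent.H750E.Equiv

/-!
# The main equivalence
-/

namespace Pool.Agent.H750E

open Polynomial

variable {n : ℕ}

theorem curveAt_std (γ : Fin n → ℂ[X]) (F : MvPolynomial (Fin n) ℂ)
    (h : ∀ t, MvPolynomial.eval (curveAt γ t) F = 0) : MvPolynomial.aeval γ F = 0 :=
  (curve_mem_iff F γ).1 h

theorem exotic_imp (w : Fin n → ℕ) (hw : ∀ i, 0 < w i) (p : MvPolynomial (Fin n) ℂ) (d : ℕ)
    (hp : p.IsWeightedHomogeneous w d) (h : HasExoticCurve (Hyp p)) :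
    ∃ γ : Fin n → ℂ[X], MvPolynomial.aeval γ p = 0 ∧ NC w γ := by
  obtain ⟨γ, hγ, hne, hα⟩ := h
  refine ⟨γ, (curve_mem_iff p γ).1 hγ, ?_⟩
  by_contra hnc
  unfold NC at hnc
  push Not at hnc
  obtain ⟨a, e, Q, he, ⟨t₀, ht₀⟩, hγa⟩ := const_ratio w hw γ hnc
  have hae : a = curveAt γ t₀ := funext fun i => ht₀ i
  have haX : a ∈ Hyp p := hae ▸ hγ t₀
  obtain ⟨i₀, hi₀⟩ := exists_ne_of_nonconst hne
  have hQ : Q.natDegree ≠ 0 := by
    intro hQ
    apply hi₀
    rw [(hγa i₀).1, Polynomial.eq_C_of_natDegree_eq_zero hQ, ← C_pow, ← C_mul, natDegree_C]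
  have hval : ∀ i t, (γ i).eval t = a i * (Q.eval t) ^ (w i / e) := by
    intro i t; rw [(hγa i).1, eval_mul, eval_C, eval_pow]
  have hpow : ∀ i (s : ℂ), a i * (s ^ e) ^ (w i / e) = s ^ w i * a i := by
    intro i s
    by_cases hai : a i = 0
    · simp [hai]
    · rw [← pow_mul, Nat.mul_div_cancel' ((hγa i).2 hai), mul_comm]
  apply hα (stdAction w p d hp) a haX
  apply Set.Subset.antisymm
  · rintro _ ⟨t, rfl⟩ F hF
    have h1 : MvPolynomial.aeval γ F * Q = 0 := by
      apply Polynomial.funext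
      intro t'
      rw [eval_mul, eval_aeval_poly, eval_zero]
      by_cases hQt : Q.eval t' = 0
      · rw [hQt, mul_zero]
      · obtain ⟨s, hs⟩ := IsAlgClosed.exists_pow_nat_eq (Q.eval t') he
        have hs0 : s ≠ 0 := by
          rintro rfl
          rw [zero_pow he.ne'] at hs
          exact hQt hs.symm
        have h2 := hF (curveAt γ t') ⟨Units.mk0 s hs0, by
          funext i
          change (γ i).eval t' = (Units.mk0 s hs0 : ℂˣ) ^ w i * a i
          rw [hval, ← hs, hpow, Units.val_mk0]⟩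
        change MvPolynomial.eval (curveAt γ t') F * _ = 0
        rw [h2, zero_mul]
    have hQ0 : Q ≠ 0 := by rintro rfl; simp at hQ
    have h3 := (mul_eq_zero.1 h1).resolve_right hQ0
    have h4 := eval_aeval_poly γ F t
    rw [h3, eval_zero] at h4
    exact h4.symm
  · intro y hy
    refine range_closed γ i₀ hi₀ y fun F hF => hy F ?_
    rintro _ ⟨s, rfl⟩
    obtain ⟨t, ht⟩ : ∃ t, Q.eval t = (s : ℂ) ^ e := by
      have hdeg : (Q - C ((s : ℂ) ^ e)).degree ≠ 0 := by
        intro h0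
        have h1 := Polynomial.natDegree_eq_of_degree_eq_some h0
        rw [Polynomial.natDegree_sub_C] at h1
        exact hQ h1
      obtain ⟨t, ht⟩ := IsAlgClosed.exists_root _ hdeg
      refine ⟨t, ?_⟩
      have := ht.eq_zero
      rw [eval_sub, eval_C, sub_eq_zero] at this
      exact this
    have h1 := hF (curveAt γ t) ⟨t, rfl⟩
    have h2 : curveAt γ t = (stdAction w p d hp).act s a := by
      funext i
      change (γ i).eval t = (s : ℂ) ^ w i * a i
      rw [hval, ht, hpow]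
    rwa [h2] at h1

theorem eval_bind {x : Fin n → ℂ} (f : Fin n → MvPolynomial (Fin n) ℂ)
    (F : MvPolynomial (Fin n) ℂ) : MvPolynomial.eval x (MvPolynomial.bind₁ f F)
      = MvPolynomial.eval (fun i => MvPolynomial.eval x (f i)) F := by
  induction F using MvPolynomial.induction_on with
  | C a => simp
  | add p q hp hq => simp only [map_add, hp, hq]
  | mul_X p i hp => simp only [map_mul, hp]; simp

/-- If the image of the polynomial curve `g` in `X` is the closure of an orbit of some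
`ℂˣ`-action, then `g` factors through a polynomial separating only points with different
images. -/
theorem factor_of_orbit (X : Set (Fin n → ℂ)) (α : CstarAction X) (a : Fin n → ℂ) (ha : a ∈ X)
    (g : Fin n → ℂ[X]) (h : Set.range (curveAt g) = zariskiClosure (α.orbit a)) :
    ∃ Q : ℂ[X], (∀ F : MvPolynomial (Fin n) ℂ, ∃ G : ℂ[X], MvPolynomial.aeval g F = G.comp Q) ∧
      ∀ t₁ t₂ : ℂ, (∀ i, (g i).eval t₁ = (g i).eval t₂) → Q.eval t₁ = Q.eval t₂ := by
  obtain ⟨N, P, hP⟩ := α.regular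
  refine exists_param (fun s => α.act s a) g ?_ ?_ ?_
  · intro i
    set A : ℂ[X] := (P i).map (MvPolynomial.eval a) with hA
    have h1 : (fun s : ℂˣ => α.act s a i)
        = ∑ k ∈ A.support, A.coeff k • chi ((k : ℤ) - N) := by
      funext s
      have h2 := hP s a ha i
      have hs : (s : ℂ) ^ N ≠ 0 := pow_ne_zero _ s.ne_zero
      apply mul_left_cancel₀ hs
      rw [h2, ← hA, Polynomial.eval_eq_sum, Polynomial.sum_def, Finset.sum_apply,
        Finset.mul_sum]
      refine Finset.sum_congr rfl fun k _ => ?_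
      rw [Pi.smul_apply, smul_eq_mul, chi_apply, zpow_sub, Units.val_mul, zpow_natCast,
        zpow_natCast, Units.val_pow_eq_pow_val, Units.val_inv_eq_inv_val,
        Units.val_pow_eq_pow_val]
      field_simp
    rw [h1]
    exact Submodule.sum_mem _ fun k _ => Submodule.smul_mem _ _ (Submodule.subset_span ⟨_, rfl⟩)
  · intro c F
    refine ⟨MvPolynomial.bind₁ (fun i => MvPolynomial.C (((c : ℂ) ^ N)⁻¹)
      * (P i).eval (MvPolynomial.C (c : ℂ))) F, fun s => ?_⟩
    rw [eval_bind]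
    congr 2
    funext i
    rw [map_mul, MvPolynomial.eval_C, α.mul_act c s a ha]
    have h2 := hP c (α.act s a) (α.mapsTo s a ha) i
    have h3 : MvPolynomial.eval (α.act s a) ((P i).eval (MvPolynomial.C (c : ℂ)))
        = ((P i).map (MvPolynomial.eval (α.act s a))).eval (c : ℂ) := by
      rw [Polynomial.eval_map, Polynomial.eval, Polynomial.hom_eval₂]
      simp
    rw [h3, ← h2]
    have hc : (c : ℂ) ^ N ≠ 0 := pow_ne_zero _ c.ne_zero
    field_simp
  · intro F
    constructor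
    · intro hF
      apply curveAt_std
      intro t
      have ht : curveAt g t ∈ zariskiClosure (α.orbit a) := h ▸ ⟨t, rfl⟩
      apply ht
      rintro _ ⟨s, rfl⟩
      have := congrFun hF s
      rw [Theta_apply] at this
      exact this
    · intro hF
      funext s
      rw [Theta_apply]
      have hs : α.act s a ∈ zariskiClosure (α.orbit a) := fun F' hF' => hF' _ ⟨s, rfl⟩
      rw [← h] at hs
      obtain ⟨t, ht⟩ := hs
      change MvPolynomial.eval (α.act s a) F = 0
      rw [← ht]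
      have := eval_aeval_poly g F t
      rw [hF, eval_zero] at this
      exact this.symm

theorem exists_coprime_parts (A B : ℂ[X]) (hB : B ≠ 0) :
    ∃ D N₁ N₂ : ℂ[X], IsCoprime N₁ N₂ ∧ A = D * N₁ ∧ B = D * N₂ := by
  have hg : EuclideanDomain.gcd A B ≠ 0 := fun h => hB (EuclideanDomain.gcd_eq_zero_iff.1 h).2
  have h3 := EuclideanDomain.gcd_eq_gcd_ab A B
  generalize EuclideanDomain.gcdA A B = U at h3
  generalize EuclideanDomain.gcdB A B = V at h3
  obtain ⟨N₁, h1⟩ := EuclideanDomain.gcd_dvd_left A B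
  obtain ⟨N₂, h2⟩ := EuclideanDomain.gcd_dvd_right A B
  generalize EuclideanDomain.gcd A B = D at h1 h2 h3 hg
  refine ⟨D, N₁, N₂, ⟨U, V, ?_⟩, h1, h2⟩
  apply mul_left_cancel₀ hg
  rw [h1, h2] at h3
  linear_combination -h3

theorem exotic_of_NC (w : Fin n → ℕ) (hw : ∀ i, 0 < w i) (p : MvPolynomial (Fin n) ℂ) (d : ℕ)
    (hp : p.IsWeightedHomogeneous w d) (γ : Fin n → ℂ[X]) (hγ : MvPolynomial.aeval γ p = 0)
    (hnc : NC w γ) : HasExoticCurve (Hyp p) := by
  obtain ⟨i, j, hi, hj, t₁, t₂, hne⟩ := NC_points hw hnc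
  obtain ⟨h, hh0, h1, h2⟩ : ∃ h : ℂ[X], h ≠ 0 ∧ h.eval t₁ = 0 ∧ h.eval t₂ = 0 :=
    ⟨(X - C t₁) * (X - C t₂), mul_ne_zero (X_sub_C_ne_zero _) (X_sub_C_ne_zero _), by simp,
      by simp⟩
  set g : Fin n → ℂ[X] := fun k => h ^ w k * γ k with hg
  have hgp : MvPolynomial.aeval g p = 0 := by
    rw [hg, aeval_scale w p d hp h γ, hγ, mul_zero]
  have hg0 : ∀ k t, h.eval t = 0 → (g k).eval t = 0 := by
    intro k t ht
    rw [hg]
    simp only [eval_mul, eval_pow, ht]
    rw [zero_pow (hw k).ne', zero_mul]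
  have hgi : g i ≠ 0 := mul_ne_zero (pow_ne_zero _ hh0) hi
  have hgj : g j ≠ 0 := mul_ne_zero (pow_ne_zero _ hh0) hj
  refine ⟨g, (curve_mem_iff p g).2 hgp, ?_, ?_⟩
  · have : ∃ t, (g i).eval t ≠ 0 := by
      by_contra hc
      push Not at hc
      exact hgi (Polynomial.funext fun t => by rw [hc t, eval_zero])
    obtain ⟨t, ht⟩ := this
    refine ⟨t, t₁, fun heq => ht ?_⟩
    have := congrFun heq i
    simp only [curveAt] at this
    rw [this]
    exact hg0 i t₁ h1
  · intro α a ha heq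
    obtain ⟨Q, hQG, hQ⟩ := factor_of_orbit (Hyp p) α a ha g heq
    have hq : Q.eval t₁ = Q.eval t₂ := hQ t₁ t₂ fun k => by rw [hg0 k t₁ h1, hg0 k t₂ h2]
    obtain ⟨Gi, hGi⟩ := hQG (MvPolynomial.X i)
    obtain ⟨Gj, hGj⟩ := hQG (MvPolynomial.X j)
    rw [MvPolynomial.aeval_X] at hGi hGj
    have hGi0 : Gi ≠ 0 := by rintro rfl; rw [zero_comp] at hGi; exact hgi hGi
    have hGj0 : Gj ≠ 0 := by rintro rfl; rw [zero_comp] at hGj; exact hgj hGj
    -- the two weighted powers
    obtain ⟨D, N₁, N₂, hcop, hN₁, hN₂⟩ : ∃ D N₁ N₂ : ℂ[X], IsCoprime N₁ N₂ ∧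
        Gi ^ w j = D * N₁ ∧ Gj ^ w i = D * N₂ := by
      exact exists_coprime_parts (Gi ^ w j) (Gj ^ w i) (pow_ne_zero _ hGj0)
    have hA : h ^ (w i * w j) * γ i ^ w j = D.comp Q * N₁.comp Q := by
      have hgi' : g i = h ^ w i * γ i := rfl
      rw [← mul_comp, ← hN₁, pow_comp, ← hGi, hgi', mul_pow, ← pow_mul]
    have hB : h ^ (w i * w j) * γ j ^ w i = D.comp Q * N₂.comp Q := by
      have hgj' : g j = h ^ w j * γ j := rfl
      rw [← mul_comp, ← hN₂, pow_comp, ← hGj, hgj', mul_pow, ← pow_mul, mul_comm (w i) (w j)]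
    have hD0 : D.comp Q ≠ 0 := by
      intro hD
      rw [hD, zero_mul] at hA
      exact mul_ne_zero (pow_ne_zero _ hh0) (pow_ne_zero _ hi) hA
    have hcross : γ i ^ w j * N₂.comp Q = γ j ^ w i * N₁.comp Q := by
      apply mul_left_cancel₀ hD0
      apply mul_left_cancel₀ (pow_ne_zero (w i * w j) hh0)
      linear_combination (D.comp Q * N₂.comp Q) * hA - (D.comp Q * N₁.comp Q) * hB
    obtain ⟨u, v, huv⟩ := hcop
    have e1 := congrArg (Polynomial.eval t₁) hcross
    have e2 := congrArg (Polynomial.eval t₂) hcross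
    have e3 := congrArg (Polynomial.eval (Q.eval t₁)) huv
    simp only [eval_mul, eval_pow, eval_comp, eval_add, eval_one] at e1 e2 e3
    rw [← hq] at e2
    apply hne
    set A₁ := (γ i).eval t₁ ^ w j
    set A₂ := (γ i).eval t₂ ^ w j
    set B₁ := (γ j).eval t₁ ^ w i
    set B₂ := (γ j).eval t₂ ^ w i
    set U := eval (eval t₁ Q) u
    set V := eval (eval t₁ Q) v
    set M₁ := eval (eval t₁ Q) N₁
    set M₂ := eval (eval t₁ Q) N₂
    -- `e1 : A₁ * M₂ = B₁ * M₁`, `e2 : A₂ * M₂ = B₂ * M₁`, `e3 : U * M₁ + V * M₂ = 1`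
    linear_combination (-(A₁ * B₂ - A₂ * B₁)) * e3 + (V * B₂ + U * A₂) * e1
      - (V * B₁ + U * A₁) * e2

theorem exotic_iff (w : Fin n → ℕ) (hw : ∀ i, 0 < w i) (p : MvPolynomial (Fin n) ℂ) (d : ℕ)
    (hp : p.IsWeightedHomogeneous w d) :
    HasExoticCurve (Hyp p) ↔ ∃ γ : Fin n → ℂ[X], MvPolynomial.aeval γ p = 0 ∧ NC w γ :=
  ⟨exotic_imp w hw p d hp, fun ⟨γ, hγ, hnc⟩ => exotic_of_NC w hw p d hp γ hγ hnc⟩

end Pool.Agent.H750E
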