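import Mathlib
import Pool.Agent.H750E.Exotic

/-!
# Mason–Stothers with multiplicities, for the Pham–Brieskorn equation `f ^ a + g ^ b + h ^ c = 0`
-/

namespace Pool.Agent.H750E

open Polynomial UniqueFactorizationMonoid

theorem radical_natDegree_le_card (P : ℂ[X]) (hP : P ≠ 0) :
    (radical P).natDegree ≤ P.roots.toFinset.card := by
  classical
  set T : ℂ[X] := ∏ α ∈ P.roots.toFinset, (X - C α) with hT
  have hT0 : T ≠ 0 := Finset.prod_ne_zero_iff.2 fun α _ => X_sub_C_ne_zero α
  have hTd : T.natDegree = P.roots.toFinset.card := by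
    rw [hT, Polynomial.natDegree_prod _ _ fun α _ => X_sub_C_ne_zero α]
    simp
  have hsplit : P = C P.leadingCoeff * (P.roots.map fun a => X - C a).prod :=
    (IsAlgClosed.splits P).eq_prod_roots
  have h1 : (P.roots.map fun a => X - C a).prod ∣ T ^ (P.natDegree + 1) := by
    rw [Finset.prod_multiset_map_count, hT, ← Finset.prod_pow]
    refine Finset.prod_dvd_prod_of_dvd _ _ fun α _ => pow_dvd_pow _ ?_
    exact ((Multiset.count_le_card _ _).trans (Polynomial.card_roots' P)).trans (Nat.le_succ _)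
  have h2 : P ∣ T ^ (P.natDegree + 1) := by
    obtain ⟨k, hk⟩ := h1
    refine ⟨C (P.leadingCoeff)⁻¹ * k, ?_⟩
    have hl : (C P.leadingCoeff : ℂ[X]) * C (P.leadingCoeff)⁻¹ = 1 := by
      rw [← C_mul, mul_inv_cancel₀ (leadingCoeff_ne_zero.2 hP), C_1]
    rw [hk]
    calc (P.roots.map fun a => X - C a).prod * k
        = (C P.leadingCoeff * C (P.leadingCoeff)⁻¹)
            * ((P.roots.map fun a => X - C a).prod * k) := by rw [hl, one_mul]
      _ = (C P.leadingCoeff * (P.roots.map fun a => X - C a).prod)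
            * (C (P.leadingCoeff)⁻¹ * k) := by ring
      _ = P * (C (P.leadingCoeff)⁻¹ * k) := by rw [← hsplit]
  have h3 : radical P ∣ T := by
    have h4 := radical_dvd_radical h2 (pow_ne_zero _ hT0)
    exact (h4.trans radical_pow_dvd).trans radical_dvd_self
  rw [← hTd]
  exact Polynomial.natDegree_le_of_dvd h3 hT0

/-- If all roots of `P` have multiplicity at least `e` then `e` times the number of distinct roots
is at most the degree. -/
theorem mul_card_le (P : ℂ[X]) (e : ℕ)
    (h : ∀ α, 0 < P.roots.count α → e ≤ P.roots.count α) :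
    e * P.roots.toFinset.card ≤ P.natDegree := by
  classical
  calc e * P.roots.toFinset.card = ∑ _α ∈ P.roots.toFinset, e := by
        rw [Finset.sum_const, smul_eq_mul, mul_comm]
    _ ≤ ∑ α ∈ P.roots.toFinset, P.roots.count α :=
        Finset.sum_le_sum fun α hα => h α (Multiset.count_pos.2 (Multiset.mem_toFinset.1 hα))
    _ = P.roots.card := Multiset.toFinset_sum_count_eq _
    _ ≤ P.natDegree := Polynomial.card_roots' P

/-- The multiplicity of a factor: if `a x = m + v` and `b`, `c` divide `m` then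
`gcd a (lcm b c)` divides `v`. -/
theorem gcd_lcm_dvd {a b c x y z m v : ℕ} (h1 : a * x = m + v) (h2 : b * y = m)
    (h3 : c * z = m) : a.gcd (b.lcm c) ∣ v := by
  have hm : b.lcm c ∣ m := Nat.lcm_dvd ⟨y, h2.symm⟩ ⟨z, h3.symm⟩
  have h4 : a.gcd (b.lcm c) ∣ m := (Nat.gcd_dvd_right _ _).trans hm
  have h5 : a.gcd (b.lcm c) ∣ m + v := h1 ▸ (Nat.gcd_dvd_left a _).trans (dvd_mul_right _ _)
  exact (Nat.dvd_add_right h4).1 h5

theorem ms_one {a b c : ℕ} {f g h D A B E : ℂ[X]} (hD : D ≠ 0) (hA : A ≠ 0) (hB : B ≠ 0)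
    (hE : E ≠ 0) (hf : f ^ a = D * A) (hg : g ^ b = D * B) (hh : h ^ c = D * E)
    (hAB : IsCoprime A B) (hAE : IsCoprime A E) :
    a.gcd (b.lcm c) * A.roots.toFinset.card ≤ A.natDegree := by
  classical
  apply mul_card_le
  intro α hα
  have hroot : A.eval α = 0 := by
    have := Multiset.count_pos.1 hα
    exact (Polynomial.mem_roots'.1 this).2
  have hnot : ∀ B : ℂ[X], IsCoprime A B → B.roots.count α = 0 := by
    rintro B ⟨u, v, huv⟩
    rw [Multiset.count_eq_zero]
    intro hmem
    have hB := (Polynomial.mem_roots'.1 hmem).2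
    have := congrArg (Polynomial.eval α) huv
    rw [eval_add, eval_mul, eval_mul, hroot, show B.eval α = 0 from hB] at this
    simp at this
  have cnt : ∀ (f D A : ℂ[X]) (a : ℕ), D ≠ 0 → A ≠ 0 → f ^ a = D * A →
      a * f.roots.count α = D.roots.count α + A.roots.count α := by
    intro f D A a hD hA h
    have := congrArg (fun P : ℂ[X] => P.roots.count α) h
    simp only [Polynomial.roots_pow, Multiset.count_nsmul, Polynomial.roots_mul (mul_ne_zero hD hA),
      Multiset.count_add] at this
    exact this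
  have h1 := cnt f D A a hD hA hf
  have h2 := cnt g D B b hD hB hg
  have h3 := cnt h D E c hD hE hh
  rw [hnot B hAB, add_zero] at h2
  rw [hnot E hAE, add_zero] at h3
  exact Nat.le_of_dvd hα (gcd_lcm_dvd h1 h2 h3)

end Pool.Agent.H750E
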