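import Mathlib
import Pool.Agent.H750E.Ms

/-!
# The arithmetic condition for `f ^ a + g ^ b + h ^ c = 0`
-/

namespace Pool.Agent.H750E

open Polynomial UniqueFactorizationMonoid

theorem ms_main {a b c : ℕ} (ha : 0 < a) (hb : 0 < b) (hc : 0 < c) {f g h : ℂ[X]} (hf : f ≠ 0)
    (hg : g ≠ 0) (hh : h ≠ 0) (hsum : f ^ a + g ^ b + h ^ c = 0)
    (hnc : ∀ κ : ℂ, f ^ a ≠ C κ * h ^ c) :
    a.gcd (b.lcm c) * b.gcd (a.lcm c) * c.gcd (a.lcm b)
      < b.gcd (a.lcm c) * c.gcd (a.lcm b) + a.gcd (b.lcm c) * c.gcd (a.lcm b)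
        + a.gcd (b.lcm c) * b.gcd (a.lcm c) := by
  classical
  obtain ⟨D, A, B, hAB, hA', hB'⟩ := exists_coprime_parts (f ^ a) (g ^ b) (pow_ne_zero _ hg)
  set E : ℂ[X] := -(A + B) with hE
  have hE' : h ^ c = D * E := by
    rw [hE]; linear_combination hsum - hA' - hB'
  have hD : D ≠ 0 := by
    rintro rfl; rw [zero_mul] at hA'; exact pow_ne_zero _ hf hA'
  have hA : A ≠ 0 := by
    rintro rfl; rw [mul_zero] at hA'; exact pow_ne_zero _ hf hA'
  have hB : B ≠ 0 := by
    rintro rfl; rw [mul_zero] at hB'; exact pow_ne_zero _ hg hB'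
  have hE0 : E ≠ 0 := by
    intro h0; rw [h0, mul_zero] at hE'; exact pow_ne_zero _ hh hE'
  have hAE : IsCoprime A E := by
    obtain ⟨u, v, huv⟩ := hAB
    exact ⟨u - v, -v, by rw [hE]; linear_combination huv⟩
  have hBE : IsCoprime B E := by
    obtain ⟨u, v, huv⟩ := hAB
    exact ⟨v - u, -u, by rw [hE]; linear_combination huv⟩
  have n1 := ms_one hD hA hB hE0 hA' hB' hE' hAB hAE
  have n2 := ms_one hD hB hA hE0 hB' hA' hE' hAB.symm hBE
  have n3 := ms_one hD hE0 hA hB hE' hA' hB' hAE.symm hBE.symm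
  have hrad : (radical (A * B * E)).natDegree
      ≤ A.roots.toFinset.card + B.roots.toFinset.card + E.roots.toFinset.card := by
    refine (radical_natDegree_le_card _ (mul_ne_zero (mul_ne_zero hA hB) hE0)).trans ?_
    rw [Polynomial.roots_mul (mul_ne_zero (mul_ne_zero hA hB) hE0),
      Polynomial.roots_mul (mul_ne_zero hA hB), Multiset.toFinset_add, Multiset.toFinset_add]
    exact (Finset.card_union_le _ _).trans (Nat.add_le_add_right (Finset.card_union_le _ _) _)
  have e1 : 0 < a.gcd (b.lcm c) := Nat.gcd_pos_of_pos_left _ ha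
  have e2 : 0 < b.gcd (a.lcm c) := Nat.gcd_pos_of_pos_left _ hb
  have e3 : 0 < c.gcd (a.lcm b) := Nat.gcd_pos_of_pos_left _ hc
  rcases Polynomial.abc hA hB hE0 hAB (by rw [hE]; ring) with ⟨h1, h2, h3⟩ | ⟨h1, -, h3⟩
  · generalize a.gcd (b.lcm c) = x at *
    generalize b.gcd (a.lcm c) = y at *
    generalize c.gcd (a.lcm b) = z at *
    generalize A.roots.toFinset.card = p at *
    generalize B.roots.toFinset.card = q at *
    generalize E.roots.toFinset.card = r at *
    obtain ⟨M, hM1, hM2, hM3, hM⟩ : ∃ M, A.natDegree ≤ M ∧ B.natDegree ≤ M ∧ E.natDegree ≤ M ∧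
        M + 1 ≤ p + q + r := by
      refine ⟨max A.natDegree (max B.natDegree E.natDegree), le_max_left _ _,
        (le_max_left _ _).trans (le_max_right _ _), (le_max_right _ _).trans (le_max_right _ _), ?_⟩
      have : max A.natDegree (max B.natDegree E.natDegree) + 1
          ≤ (radical (A * B * E)).natDegree := by
        rcases max_choice A.natDegree (max B.natDegree E.natDegree) with hm | hm
        · rw [hm]; exact h1
        · rw [hm]
          rcases max_choice B.natDegree E.natDegree with hm | hm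
          · rw [hm]; exact h2
          · rw [hm]; exact h3
      exact this.trans hrad
    by_contra hcon
    push Not at hcon
    have k1 : x * p ≤ M := n1.trans hM1
    have k2 : y * q ≤ M := n2.trans hM2
    have k3 : z * r ≤ M := n3.trans hM3
    have l1 : (y * z) * (x * p) ≤ (y * z) * M := Nat.mul_le_mul_left _ k1
    have l2 : (x * z) * (y * q) ≤ (x * z) * M := Nat.mul_le_mul_left _ k2
    have l3 : (x * y) * (z * r) ≤ (x * y) * M := Nat.mul_le_mul_left _ k3
    have l4 : (x * y * z) * (M + 1) ≤ (x * y * z) * (p + q + r) := Nat.mul_le_mul_left _ hM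
    have l5 : (y * z + x * z + x * y) * M ≤ (x * y * z) * M := Nat.mul_le_mul_right _ hcon
    have l6 : 0 < x * y * z := Nat.mul_pos (Nat.mul_pos e1 e2) e3
    nlinarith
  · exfalso
    rw [Polynomial.derivative_eq_zero] at h1 h3
    have hAC := Polynomial.eq_C_of_natDegree_eq_zero h1
    have hEC := Polynomial.eq_C_of_natDegree_eq_zero h3
    have hε : E.coeff 0 ≠ 0 := by
      intro h0
      rw [h0, C_0] at hEC
      exact hE0 hEC
    apply hnc (A.coeff 0 / E.coeff 0)
    have hk : (A.coeff 0 / E.coeff 0) * E.coeff 0 = A.coeff 0 := div_mul_cancel₀ _ hε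
    calc f ^ a = D * A := hA'
      _ = D * C (A.coeff 0) := by rw [← hAC]
      _ = C (A.coeff 0 / E.coeff 0) * (D * C (E.coeff 0)) := by
          rw [← hk, C_mul]
          rw [hk]; ring
      _ = C (A.coeff 0 / E.coeff 0) * h ^ c := by rw [← hEC, ← hE']

theorem arith2 {y z : ℕ} (hy : 3 ≤ y) (hz : 3 ≤ z)
    (p2 : ∀ q, q.Prime → q ∣ 2 → q ∣ y ∨ q ∣ z) (py : ∀ q, q.Prime → q ∣ y → q ∣ 2 ∨ q ∣ z)
    (pz : ∀ q, q.Prime → q ∣ z → q ∣ 2 ∨ q ∣ y) (h : 2 * y * z < y * z + 2 * z + 2 * y) :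
    False := by
  have hy5 : y ≤ 5 := by nlinarith
  have hz5 : z ≤ 5 := by nlinarith
  have h2 := p2 2 Nat.prime_two (dvd_refl 2)
  have h3 := py 3 Nat.prime_three
  have h3' := pz 3 Nat.prime_three
  have h5 := py 5 Nat.prime_five
  have h5' := pz 5 Nat.prime_five
  interval_cases y <;> interval_cases z <;> omega

/-- The arithmetic of the exponents: if `x, y, z` are at least `2`, every prime divisor of one of
them divides a second one and `1/x + 1/y + 1/z > 1` then two of them are equal to `2`. -/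
theorem arith {x y z : ℕ} (hx : 2 ≤ x) (hy : 2 ≤ y) (hz : 2 ≤ z)
    (px : ∀ q, q.Prime → q ∣ x → q ∣ y ∨ q ∣ z) (py : ∀ q, q.Prime → q ∣ y → q ∣ x ∨ q ∣ z)
    (pz : ∀ q, q.Prime → q ∣ z → q ∣ x ∨ q ∣ y) (h : x * y * z < y * z + x * z + x * y) :
    (x = 2 ∧ y = 2) ∨ (x = 2 ∧ z = 2) ∨ (y = 2 ∧ z = 2) := by
  by_contra hcon
  rcases Nat.lt_or_ge 2 x with hx3 | hx2
  · rcases Nat.lt_or_ge 2 y with hy3 | hy2
    · rcases Nat.lt_or_ge 2 z with hz3 | hz2
      · -- all at least `3`
        have a1 : 3 * (y * z) ≤ x * (y * z) := Nat.mul_le_mul_right _ hx3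
        have a2 : 3 * (x * z) ≤ y * (x * z) := Nat.mul_le_mul_right _ hy3
        have a3 : 3 * (x * y) ≤ z * (x * y) := Nat.mul_le_mul_right _ hz3
        nlinarith
      · have hz' : z = 2 := le_antisymm hz2 hz
        subst hz'
        exact arith2 (y := x) (z := y) hx3 hy3 pz (fun q hq hd => (px q hq hd).symm)
          (fun q hq hd => (py q hq hd).symm) (by nlinarith)
    · have hy' : y = 2 := le_antisymm hy2 hy
      subst hy'
      have hz3 : 3 ≤ z := by
        rcases Nat.lt_or_ge 2 z with hz3 | hz2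
        · exact hz3
        · exact absurd (Or.inr (Or.inr ⟨rfl, le_antisymm hz2 hz⟩)) hcon
      exact arith2 (y := x) (z := z) hx3 hz3 py px (fun q hq hd => (pz q hq hd).symm)
        (by nlinarith)
  · have hx' : x = 2 := le_antisymm hx2 hx
    subst hx'
    have hy3 : 3 ≤ y := by
      rcases Nat.lt_or_ge 2 y with hy3 | hy2
      · exact hy3
      · exact absurd (Or.inl ⟨rfl, le_antisymm hy2 hy⟩) hcon
    have hz3 : 3 ≤ z := by
      rcases Nat.lt_or_ge 2 z with hz3 | hz2
      · exact hz3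
      · exact absurd (Or.inr (Or.inl ⟨rfl, le_antisymm hz2 hz⟩)) hcon
    exact arith2 hy3 hz3 px py pz (by nlinarith)

end Pool.Agent.H750E
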