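import Mathlib
import Pool.Agent.H750E.Ms2

/-!
# The condition on the exponents
-/

namespace Pool.Agent.H750E

/-- The condition on the exponents of `x ^ a + y ^ b + z ^ c`. -/
def Cond (a b c : ℕ) : Prop :=
  (a.Coprime b ∧ a.Coprime c) ∨ (b.Coprime a ∧ b.Coprime c) ∨ (c.Coprime a ∧ c.Coprime b) ∨
    ((2 ∣ a ∧ 2 ∣ b ∧ 2 ∣ c) ∧ (a / 2).Coprime (b / 2) ∧ (a / 2).Coprime (c / 2) ∧
      (b / 2).Coprime (c / 2))

theorem half_coprime {a b L : ℕ} (ha : 2 ∣ a) (hb : 2 ∣ b) (hL : b ∣ L) (h : a.gcd L = 2) :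
    (a / 2).Coprime (b / 2) := by
  set d := (a / 2).gcd (b / 2) with hd
  have h1 : 2 * d ∣ a := by
    have := Nat.mul_dvd_mul_left 2 (Nat.gcd_dvd_left (a / 2) (b / 2))
    rwa [Nat.mul_div_cancel' ha] at this
  have h2 : 2 * d ∣ b := by
    have := Nat.mul_dvd_mul_left 2 (Nat.gcd_dvd_right (a / 2) (b / 2))
    rwa [Nat.mul_div_cancel' hb] at this
  have h3 : 2 * d ∣ 2 := by
    have := Nat.dvd_gcd h1 (h2.trans hL)
    rwa [h] at this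
  have h4 : d ∣ 1 := by
    have : 2 * d ∣ 2 * 1 := by simpa using h3
    exact Nat.dvd_of_mul_dvd_mul_left two_pos this
  exact Nat.dvd_one.1 h4

theorem two_dvd_third {x y z : ℕ} (hz : 2 ≤ z)
    (pz : ∀ q, q.Prime → q ∣ z → q ∣ x ∨ q ∣ y) (hx : x = 2) (hy : y = 2) : 2 ∣ z := by
  obtain ⟨q, hq, hqz⟩ := Nat.exists_prime_and_dvd (n := z) (by omega)
  have h2 : q ∣ 2 := by
    rcases pz q hq hqz with h | h
    · rwa [hx] at h
    · rwa [hy] at h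
  rw [(Nat.prime_dvd_prime_iff_eq hq Nat.prime_two).1 h2] at hqz
  exact hqz

theorem prime_dvd_lcm {q b c : ℕ} (hq : q.Prime) (h : q ∣ b.lcm c) : q ∣ b ∨ q ∣ c :=
  hq.dvd_mul.1 (h.trans (Nat.lcm_dvd_mul b c))

theorem cond_of_ineq {a b c : ℕ} (ha : 0 < a) (hb : 0 < b) (hc : 0 < c)
    (h : a.gcd (b.lcm c) * b.gcd (a.lcm c) * c.gcd (a.lcm b)
      < b.gcd (a.lcm c) * c.gcd (a.lcm b) + a.gcd (b.lcm c) * c.gcd (a.lcm b)
        + a.gcd (b.lcm c) * b.gcd (a.lcm c)) : Cond a b c := by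
  have e1 : 0 < a.gcd (b.lcm c) := Nat.gcd_pos_of_pos_left _ ha
  have e2 : 0 < b.gcd (a.lcm c) := Nat.gcd_pos_of_pos_left _ hb
  have e3 : 0 < c.gcd (a.lcm b) := Nat.gcd_pos_of_pos_left _ hc
  by_cases hx1 : a.gcd (b.lcm c) = 1
  · left
    have : a.Coprime (b.lcm c) := hx1
    exact ⟨this.coprime_dvd_right (Nat.dvd_lcm_left b c),
      this.coprime_dvd_right (Nat.dvd_lcm_right b c)⟩
  by_cases hy1 : b.gcd (a.lcm c) = 1
  · right; left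
    have : b.Coprime (a.lcm c) := hy1
    exact ⟨this.coprime_dvd_right (Nat.dvd_lcm_left a c),
      this.coprime_dvd_right (Nat.dvd_lcm_right a c)⟩
  by_cases hz1 : c.gcd (a.lcm b) = 1
  · right; right; left
    have : c.Coprime (a.lcm b) := hz1
    exact ⟨this.coprime_dvd_right (Nat.dvd_lcm_left a b),
      this.coprime_dvd_right (Nat.dvd_lcm_right a b)⟩
  right; right; right
  have px : ∀ q, q.Prime → q ∣ a.gcd (b.lcm c) → q ∣ b.gcd (a.lcm c) ∨ q ∣ c.gcd (a.lcm b) := by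
    intro q hq hd
    have h1 := hd.trans (Nat.gcd_dvd_left _ _)
    rcases prime_dvd_lcm hq (hd.trans (Nat.gcd_dvd_right _ _)) with h2 | h2
    · exact Or.inl (Nat.dvd_gcd h2 (h1.trans (Nat.dvd_lcm_left _ _)))
    · exact Or.inr (Nat.dvd_gcd h2 (h1.trans (Nat.dvd_lcm_left _ _)))
  have py : ∀ q, q.Prime → q ∣ b.gcd (a.lcm c) → q ∣ a.gcd (b.lcm c) ∨ q ∣ c.gcd (a.lcm b) := by
    intro q hq hd
    have h1 := hd.trans (Nat.gcd_dvd_left _ _)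
    rcases prime_dvd_lcm hq (hd.trans (Nat.gcd_dvd_right _ _)) with h2 | h2
    · exact Or.inl (Nat.dvd_gcd h2 (h1.trans (Nat.dvd_lcm_left _ _)))
    · exact Or.inr (Nat.dvd_gcd h2 (h1.trans (Nat.dvd_lcm_right _ _)))
  have pz : ∀ q, q.Prime → q ∣ c.gcd (a.lcm b) → q ∣ a.gcd (b.lcm c) ∨ q ∣ b.gcd (a.lcm c) := by
    intro q hq hd
    have h1 := hd.trans (Nat.gcd_dvd_left _ _)
    rcases prime_dvd_lcm hq (hd.trans (Nat.gcd_dvd_right _ _)) with h2 | h2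
    · exact Or.inl (Nat.dvd_gcd h2 (h1.trans (Nat.dvd_lcm_right _ _)))
    · exact Or.inr (Nat.dvd_gcd h2 (h1.trans (Nat.dvd_lcm_right _ _)))
  have hx2 : 2 ≤ a.gcd (b.lcm c) := by omega
  have hy2 : 2 ≤ b.gcd (a.lcm c) := by omega
  have hz2 : 2 ≤ c.gcd (a.lcm b) := by omega
  rcases arith hx2 hy2 hz2 px py pz h with ⟨h1, h2⟩ | ⟨h1, h2⟩ | ⟨h1, h2⟩
  · have h3 := two_dvd_third hz2 pz h1 h2
    have ka : 2 ∣ a := h1 ▸ Nat.gcd_dvd_left a (b.lcm c)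
    have kb : 2 ∣ b := h2 ▸ Nat.gcd_dvd_left b (a.lcm c)
    have kc : 2 ∣ c := h3.trans (Nat.gcd_dvd_left _ _)
    exact ⟨⟨ka, kb, kc⟩, half_coprime ka kb (Nat.dvd_lcm_left _ _) h1,
      half_coprime ka kc (Nat.dvd_lcm_right _ _) h1, half_coprime kb kc (Nat.dvd_lcm_right _ _) h2⟩
  · have h3 := two_dvd_third hy2 py h1 h2
    have ka : 2 ∣ a := h1 ▸ Nat.gcd_dvd_left a (b.lcm c)
    have kc : 2 ∣ c := h2 ▸ Nat.gcd_dvd_left c (a.lcm b)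
    have kb : 2 ∣ b := h3.trans (Nat.gcd_dvd_left _ _)
    exact ⟨⟨ka, kb, kc⟩, half_coprime ka kb (Nat.dvd_lcm_left _ _) h1,
      half_coprime ka kc (Nat.dvd_lcm_right _ _) h1,
      (half_coprime kc kb (Nat.dvd_lcm_right _ _) h2).symm⟩
  · have h3 := two_dvd_third hx2 px h1 h2
    have kb : 2 ∣ b := h1 ▸ Nat.gcd_dvd_left b (a.lcm c)
    have kc : 2 ∣ c := h2 ▸ Nat.gcd_dvd_left c (a.lcm b)
    have ka : 2 ∣ a := h3.trans (Nat.gcd_dvd_left _ _)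
    exact ⟨⟨ka, kb, kc⟩, (half_coprime kb ka (Nat.dvd_lcm_left _ _) h1).symm,
      (half_coprime kc ka (Nat.dvd_lcm_left _ _) h2).symm,
      half_coprime kb kc (Nat.dvd_lcm_right _ _) h1⟩

end Pool.Agent.H750E
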