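import Mathlib
import Pool.Agent.H750E.Cond

/-!
# Solutions of `f ^ a + g ^ b + h ^ c = 0` in polynomials
-/

namespace Pool.Agent.H750E

open Polynomial

/-- `f ^ a + g ^ b + h ^ c = 0` has a solution in non-zero polynomials with non-constant
quotients of the three terms. -/
def Sol (a b c : ℕ) : Prop :=
  ∃ f g h : ℂ[X], f ≠ 0 ∧ g ≠ 0 ∧ h ≠ 0 ∧ f ^ a + g ^ b + h ^ c = 0 ∧
    ∀ κ : ℂ, f ^ a ≠ C κ * h ^ c

theorem Sol.swap {a b c : ℕ} (hs : Sol a b c) : Sol b a c := by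
  obtain ⟨f, g, h, hf, hg, hh, hsum, hk⟩ := hs
  refine ⟨g, f, h, hg, hf, hh, by rw [← hsum]; ring, fun κ hκ => hk (-(1 + κ)) ?_⟩
  rw [C_neg, C_add, C_1]
  linear_combination hsum - hκ

theorem Sol.rot {a b c : ℕ} (hs : Sol a b c) : Sol c b a := by
  obtain ⟨f, g, h, hf, hg, hh, hsum, hk⟩ := hs
  refine ⟨h, g, f, hh, hg, hf, by rw [← hsum]; ring, fun κ hκ => ?_⟩
  have hκ0 : κ ≠ 0 := by
    rintro rfl
    rw [C_0, zero_mul] at hκ
    exact pow_ne_zero _ hh hκ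
  apply hk κ⁻¹
  rw [hκ, ← mul_assoc, ← C_mul, inv_mul_cancel₀ hκ0, C_1, one_mul]

theorem exists_mul_add_one {x y : ℕ} (hx : 0 < x) (h : x.Coprime y) :
    ∃ k m : ℕ, k * y + 1 = x * m := by
  obtain ⟨u, v, huv⟩ : ∃ u v : ℤ, u * x + v * y = 1 := by
    have := Int.isCoprime_iff_gcd_eq_one.2 (by simpa using h : Int.gcd x y = 1)
    obtain ⟨u, v, huv⟩ := this
    exact ⟨u, v, huv⟩
  -- choose `k ≡ -v` modulo `x`, non-negative
  obtain ⟨k, hk⟩ : ∃ k : ℕ, ∃ r : ℤ, (k : ℤ) = -v + r * x := by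
    refine ⟨(-v + v.natAbs * x).toNat, v.natAbs, ?_⟩
    rw [Int.toNat_of_nonneg]
    have h1 : v ≤ v.natAbs := Int.le_natAbs
    have h2 : (1 : ℤ) ≤ x := by exact_mod_cast hx
    nlinarith [Int.natCast_nonneg v.natAbs]
  obtain ⟨r, hr⟩ := hk
  have h3 : ((k * y + 1 : ℕ) : ℤ) = x * (u + r * y) := by
    push_cast; rw [hr]; linear_combination -huv
  have h4 : (x : ℤ) ∣ ((k * y + 1 : ℕ) : ℤ) := ⟨_, h3⟩
  obtain ⟨m, hm⟩ := Int.natCast_dvd_natCast.1 h4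
  exact ⟨k, m, hm⟩

theorem sol_coprime {a b c : ℕ} (ha : 0 < a) (hb : 0 < b) (h : a.Coprime (b * c)) :
    Sol a b c := by
  obtain ⟨k, m, hkm⟩ := exists_mul_add_one ha h
  obtain ⟨ζ, hζ⟩ := IsAlgClosed.exists_pow_nat_eq (-1 : ℂ) ha
  set P : ℂ[X] := X ^ b + 1 with hP
  have hP0 : P ≠ 0 := by
    intro h0
    have := congrArg (Polynomial.eval 0) h0
    simp [hP, zero_pow hb.ne'] at this
  have hζ0 : ζ ≠ 0 := by rintro rfl; rw [zero_pow ha.ne'] at hζ; norm_num at hζ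
  refine ⟨C ζ * P ^ m, X * P ^ (k * c), P ^ (k * b), mul_ne_zero (C_ne_zero.2 hζ0)
    (pow_ne_zero _ hP0), mul_ne_zero X_ne_zero (pow_ne_zero _ hP0), pow_ne_zero _ hP0, ?_, ?_⟩
  · have e1 : (C ζ * P ^ m) ^ a = - P ^ (k * (b * c) + 1) := by
      rw [mul_pow, ← C_pow, hζ, ← pow_mul, mul_comm m a, ← hkm]
      simp
    have e2 : (X * P ^ (k * c)) ^ b = X ^ b * P ^ (k * (b * c)) := by
      rw [mul_pow, ← pow_mul]; congr 2; ring
    have e3 : (P ^ (k * b)) ^ c = P ^ (k * (b * c)) := by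
      rw [← pow_mul]; congr 1; ring
    rw [e1, e2, e3, pow_succ]
    nth_rewrite 2 [hP]
    ring
  · intro κ hκ
    have e1 : (C ζ * P ^ m) ^ a = - P ^ (k * (b * c) + 1) := by
      rw [mul_pow, ← C_pow, hζ, ← pow_mul, mul_comm m a, ← hkm]
      simp
    have e3 : (P ^ (k * b)) ^ c = P ^ (k * (b * c)) := by
      rw [← pow_mul]; congr 1; ring
    rw [e1, e3, pow_succ] at hκ
    have h1 : P ^ (k * (b * c)) * (P + C κ) = 0 := by linear_combination -hκ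
    have h2 := (mul_eq_zero.1 h1).resolve_left (pow_ne_zero _ hP0)
    have h3 := congrArg (Polynomial.eval 0) h2
    have h4 := congrArg (Polynomial.eval 1) h2
    simp [hP, zero_pow hb.ne'] at h3 h4
    have : (1 : ℂ) = 0 := by linear_combination h4 - h3
    exact one_ne_zero this

theorem sol_half {a b c : ℕ} (ha : 0 < a) (hb : 0 < b) (hc : 0 < c) (hab : a.Coprime b)
    (hac : a.Coprime c) (hbc : b.Coprime c) : Sol (2 * a) (2 * b) (2 * c) := by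
  obtain ⟨k₁, m₁, h₁⟩ := exists_mul_add_one ha (Nat.Coprime.mul_right hab hac)
  obtain ⟨k₂, m₂, h₂⟩ := exists_mul_add_one hb (Nat.Coprime.mul_right hab.symm hbc)
  obtain ⟨k₃, m₃, h₃⟩ := exists_mul_add_one hc (Nat.Coprime.mul_right hac.symm hbc.symm)
  set U : ℂ[X] := 1 - X ^ 2 with hU
  set V : ℂ[X] := C 2 * X with hV
  set W : ℂ[X] := C Complex.I * (1 + X ^ 2) with hW
  have hsum : U ^ 2 + V ^ 2 + W ^ 2 = 0 := by
    have hI : (C Complex.I : ℂ[X]) ^ 2 = -1 := by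
      rw [← C_pow, Complex.I_sq]; simp
    have h2 : (C 2 : ℂ[X]) = 2 := rfl
    rw [hU, hV, hW, h2]
    linear_combination (1 + X ^ 2) ^ 2 * hI
  have hU0 : U ≠ 0 := by
    intro h0
    have := congrArg (Polynomial.eval 0) h0
    simp [hU] at this
  have hV0 : V ≠ 0 := mul_ne_zero (C_ne_zero.2 two_ne_zero) X_ne_zero
  have hW0 : W ≠ 0 := by
    intro h0
    have := congrArg (Polynomial.eval 0) h0
    simp [hW] at this
  set M : ℂ[X] := U ^ (k₁ * (b * c)) * V ^ (k₂ * (a * c)) * W ^ (k₃ * (a * b)) with hM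
  have hM0 : M ≠ 0 := mul_ne_zero (mul_ne_zero (pow_ne_zero _ hU0) (pow_ne_zero _ hV0))
    (pow_ne_zero _ hW0)
  refine ⟨U ^ m₁ * V ^ (k₂ * c) * W ^ (k₃ * b), U ^ (k₁ * c) * V ^ m₂ * W ^ (k₃ * a),
    U ^ (k₁ * b) * V ^ (k₂ * a) * W ^ m₃,
    mul_ne_zero (mul_ne_zero (pow_ne_zero _ hU0) (pow_ne_zero _ hV0)) (pow_ne_zero _ hW0),
    mul_ne_zero (mul_ne_zero (pow_ne_zero _ hU0) (pow_ne_zero _ hV0)) (pow_ne_zero _ hW0),
    mul_ne_zero (mul_ne_zero (pow_ne_zero _ hU0) (pow_ne_zero _ hV0)) (pow_ne_zero _ hW0), ?_, ?_⟩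
  all_goals
    have e1 : (U ^ m₁ * V ^ (k₂ * c) * W ^ (k₃ * b)) ^ (2 * a) = U ^ 2 * M ^ 2 := by
      have : (U ^ m₁ * V ^ (k₂ * c) * W ^ (k₃ * b)) ^ a = U * M := by
        rw [mul_pow, mul_pow, ← pow_mul, mul_comm m₁ a, ← h₁, hM, pow_succ, ← pow_mul, ← pow_mul]
        ring
      rw [mul_comm 2 a, pow_mul, this]; ring
    have e2 : (U ^ (k₁ * c) * V ^ m₂ * W ^ (k₃ * a)) ^ (2 * b) = V ^ 2 * M ^ 2 := by
      have : (U ^ (k₁ * c) * V ^ m₂ * W ^ (k₃ * a)) ^ b = V * M := by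
        rw [mul_pow, mul_pow, ← pow_mul V, mul_comm m₂ b, ← h₂, hM, pow_succ, ← pow_mul, ← pow_mul]
        ring
      rw [mul_comm 2 b, pow_mul, this]; ring
    have e3 : (U ^ (k₁ * b) * V ^ (k₂ * a) * W ^ m₃) ^ (2 * c) = W ^ 2 * M ^ 2 := by
      have : (U ^ (k₁ * b) * V ^ (k₂ * a) * W ^ m₃) ^ c = W * M := by
        rw [mul_pow, mul_pow, ← pow_mul W, mul_comm m₃ c, ← h₃, hM, pow_succ, ← pow_mul, ← pow_mul]
        ring
      rw [mul_comm 2 c, pow_mul, this]; ring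
  · rw [e1, e2, e3]; linear_combination M ^ 2 * hsum
  · intro κ hκ
    rw [e1, e3] at hκ
    have h1 : M ^ 2 * (U ^ 2 - C κ * W ^ 2) = 0 := by linear_combination hκ
    have h2 := (mul_eq_zero.1 h1).resolve_left (pow_ne_zero _ hM0)
    have h3 := congrArg (Polynomial.eval 0) h2
    have h4 := congrArg (Polynomial.eval 1) h2
    simp only [hU, hW, eval_sub, eval_pow, eval_mul, eval_C, eval_add, eval_one, eval_X, eval_zero]
      at h3 h4
    have hI : Complex.I ^ 2 = -1 := Complex.I_sq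
    have h5 : (1 : ℂ) + κ = 0 := by linear_combination h3 + κ * hI
    have h6 : κ = 0 := by linear_combination (1 / 4 : ℂ) * h4 + κ * hI
    rw [h6] at h5; norm_num at h5

theorem sol_of_cond {a b c : ℕ} (ha : 0 < a) (hb : 0 < b) (hc : 0 < c) (h : Cond a b c) :
    Sol a b c := by
  rcases h with ⟨h1, h2⟩ | ⟨h1, h2⟩ | ⟨h1, h2⟩ | ⟨⟨h1, h2, h3⟩, h4, h5, h6⟩
  · exact sol_coprime ha hb (Nat.Coprime.mul_right h1 h2)
  · exact (sol_coprime hb ha (Nat.Coprime.mul_right h1 h2)).swap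
  · exact (sol_coprime hc hb (Nat.Coprime.mul_right h2 h1)).rot
  · obtain ⟨a', rfl⟩ := h1
    obtain ⟨b', rfl⟩ := h2
    obtain ⟨c', rfl⟩ := h3
    rw [Nat.mul_div_cancel_left _ two_pos, Nat.mul_div_cancel_left _ two_pos] at h4 h5 h6
    exact sol_half (by omega) (by omega) (by omega) h4 h5 h6

theorem cond_of_sol {a b c : ℕ} (ha : 0 < a) (hb : 0 < b) (hc : 0 < c) (h : Sol a b c) :
    Cond a b c := by
  obtain ⟨f, g, h, hf, hg, hh, hsum, hk⟩ := h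
  exact cond_of_ineq ha hb hc (ms_main ha hb hc hf hg hh hsum hk)

end Pool.Agent.H750E
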