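import Mathlib
import Pool.Agent.H750E.Exotic

/-!
# Points over `ℂ(t)`
-/

namespace Pool.Agent.H750E

open Polynomial

variable {n : ℕ}

theorem ratCurve_iff (w : Fin n → ℕ) (hw : ∀ i, 0 < w i) (p : MvPolynomial (Fin n) ℂ) (d : ℕ)
    (hp : p.IsWeightedHomogeneous w d) :
    HasRationalCurve w p ↔ ∃ γ : Fin n → ℂ[X], MvPolynomial.aeval γ p = 0 ∧ NC w γ := by
  classical
  have hinj : Function.Injective (algebraMap ℂ[X] (RatFunc ℂ)) :=
    RatFunc.algebraMap_injective ℂ
  have haev : ∀ γ : Fin n → ℂ[X],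
      MvPolynomial.aeval (fun i => algebraMap ℂ[X] (RatFunc ℂ) (γ i)) p
        = algebraMap ℂ[X] (RatFunc ℂ) (MvPolynomial.aeval γ p) := by
    intro γ
    have := (MvPolynomial.aeval_algebraMap_apply (R := ℂ) (RatFunc ℂ) γ p)
    exact this
  constructor
  · rintro ⟨f, hf, i, j, hj, hc⟩
    set D : ℂ[X] := ∏ k, (f k).denom with hD
    have hD0 : D ≠ 0 := Finset.prod_ne_zero_iff.2 fun k _ => (f k).denom_ne_zero
    have hD0' : algebraMap ℂ[X] (RatFunc ℂ) D ≠ 0 := fun h => hD0 (by
      rw [← map_zero (algebraMap ℂ[X] (RatFunc ℂ))] at h; exact hinj h)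
    have hex : ∀ k, ∃ g : ℂ[X], algebraMap ℂ[X] (RatFunc ℂ) g
        = algebraMap ℂ[X] (RatFunc ℂ) D ^ w k * f k := by
      intro k
      refine ⟨D ^ (w k - 1) * ((∏ l ∈ Finset.univ.erase k, (f l).denom) * (f k).num), ?_⟩
      have h1 : D = (∏ l ∈ Finset.univ.erase k, (f l).denom) * (f k).denom := by
        rw [hD, Finset.prod_erase_mul _ _ (Finset.mem_univ k)]
      have h2 : algebraMap ℂ[X] (RatFunc ℂ) (f k).num
          = algebraMap ℂ[X] (RatFunc ℂ) (f k).denom * f k := by
        have h3 := (f k).num_div_denom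
        have h4 : algebraMap ℂ[X] (RatFunc ℂ) (f k).denom ≠ 0 := fun h => (f k).denom_ne_zero (by
          rw [← map_zero (algebraMap ℂ[X] (RatFunc ℂ))] at h; exact hinj h)
        rw [div_eq_iff h4] at h3
        rw [h3, mul_comm]
      rw [map_mul, map_mul, h2, map_pow]
      obtain ⟨m, hm⟩ : ∃ m, w k = m + 1 := ⟨w k - 1, by have := hw k; omega⟩
      rw [hm, Nat.add_sub_cancel, pow_succ]
      conv_rhs => rw [mul_assoc]; enter [2]; rw [h1]
      rw [map_mul]; ring
    choose γ hγ using hex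
    refine ⟨γ, ?_, i, j, ?_, ?_⟩
    · apply hinj
      rw [← haev γ, map_zero]
      have : (fun i => algebraMap ℂ[X] (RatFunc ℂ) (γ i))
          = fun i => (algebraMap ℂ[X] (RatFunc ℂ) D) ^ w i * f i := funext hγ
      rw [this, aeval_scale w p d hp, hf, mul_zero]
    · intro h
      have h1 := hγ j
      rw [h, map_zero] at h1
      exact mul_ne_zero (pow_ne_zero _ hD0') hj h1.symm
    · intro c hcon
      apply hc c
      have h1 := congrArg (algebraMap ℂ[X] (RatFunc ℂ)) hcon
      rw [map_mul, map_pow, map_pow, hγ, hγ, RatFunc.algebraMap_C] at h1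
      have h2 : f j ^ w i ≠ 0 := pow_ne_zero _ hj
      have h3 := pow_ne_zero (w i * w j) hD0'
      rw [div_eq_iff h2]
      apply mul_left_cancel₀ h3
      rw [mul_pow, mul_pow, ← pow_mul, ← pow_mul, mul_comm (w j) (w i)] at h1
      rw [h1]; ring
  · rintro ⟨γ, hγ, i, j, hj, hc⟩
    refine ⟨fun i => algebraMap ℂ[X] (RatFunc ℂ) (γ i), ?_, i, j, ?_, ?_⟩
    · rw [haev, hγ, map_zero]
    · intro h
      apply hj
      rw [← map_zero (algebraMap ℂ[X] (RatFunc ℂ))] at h
      exact hinj h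
    · intro c h
      apply hc c
      have hj' : algebraMap ℂ[X] (RatFunc ℂ) (γ j) ^ w i ≠ 0 := by
        apply pow_ne_zero
        intro h
        apply hj
        rw [← map_zero (algebraMap ℂ[X] (RatFunc ℂ))] at h
        exact hinj h
      rw [div_eq_iff hj'] at h
      apply hinj
      rw [map_mul, map_pow, map_pow, RatFunc.algebraMap_C]
      exact h

end Pool.Agent.H750E
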