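import Mathlib
import Pool.Agent.H750E.Constr
import Pool.Agent.H750E.Rat

/-!
# Exotic curves on Pham–Brieskorn hypersurfaces
-/

namespace Pool.Agent.H750E

open Polynomial

variable {n : ℕ}

/-- The Pham–Brieskorn polynomial `∑ i, x i ^ a i`. -/
noncomputable def pham (a : Fin n → ℕ) : MvPolynomial (Fin n) ℂ :=
  ∑ i, MvPolynomial.X i ^ a i

/-- weights making `pham a` quasihomogeneous of degree `∏ a` -/
def phamW (a : Fin n → ℕ) (i : Fin n) : ℕ := ∏ j ∈ Finset.univ.erase i, a j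

theorem phamW_pos (a : Fin n → ℕ) (ha : ∀ i, 0 < a i) (i : Fin n) : 0 < phamW a i :=
  Finset.prod_pos fun j _ => ha j

theorem mul_phamW (a : Fin n → ℕ) (i : Fin n) : a i * phamW a i = ∏ j, a j :=
  Finset.mul_prod_erase _ _ (Finset.mem_univ i)

theorem pham_hom (a : Fin n → ℕ) : (pham a).IsWeightedHomogeneous (phamW a) (∏ j, a j) := by
  unfold pham
  refine MvPolynomial.IsWeightedHomogeneous.sum _ _ _ fun i _ => ?_
  have := (MvPolynomial.isWeightedHomogeneous_X ℂ (phamW a) i).pow (a i)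
  rwa [smul_eq_mul, mul_phamW] at this

theorem phamW_eq (a : Fin n → ℕ) {i j : Fin n} (hij : i ≠ j) :
    phamW a j = a i * ∏ k ∈ (Finset.univ.erase j).erase i, a k := by
  unfold phamW
  exact (Finset.mul_prod_erase _ _ (Finset.mem_erase.2 ⟨hij, Finset.mem_univ i⟩)).symm

theorem prop_of_pow {U V : ℂ[X]} {v : ℕ} (hv : 0 < v) {c : ℂ}
    (h : U ^ v = C c * V ^ v) : ∃ c' : ℂ, U = C c' * V := by
  by_cases hc : c = 0
  · refine ⟨0, ?_⟩
    rw [hc, C_0, zero_mul] at h
    rw [C_0, zero_mul]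
    exact (pow_eq_zero_iff hv.ne').1 h
  have hu : IsUnit (C c : ℂ[X]) := Polynomial.isUnit_C.2 (isUnit_iff_ne_zero.2 hc)
  have h1 : V ∣ U := (UniqueFactorizationMonoid.pow_dvd_pow_iff_dvd hv.ne').1
    ⟨C c, by rw [h, mul_comm]⟩
  have h2 : U ∣ V := (UniqueFactorizationMonoid.pow_dvd_pow_iff_dvd hv.ne').1
    ⟨C c⁻¹, by rw [h, mul_comm, ← mul_assoc, ← C_mul, inv_mul_cancel₀ hc, C_1, one_mul]⟩
  obtain ⟨u, hu⟩ := associated_of_dvd_dvd h1 h2
  obtain ⟨c', -, hc'⟩ := Polynomial.isUnit_iff.1 u.isUnit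
  exact ⟨c', by rw [← hu, ← hc', mul_comm]⟩

theorem NC_pham_iff (a : Fin n → ℕ) (ha : ∀ i, 0 < a i) (γ : Fin n → ℂ[X]) :
    NC (phamW a) γ ↔ ∃ i j, i ≠ j ∧ γ j ≠ 0 ∧ ∀ c : ℂ, γ i ^ a i ≠ C c * γ j ^ a j := by
  have key : ∀ i j, i ≠ j → ∃ v, 0 < v ∧ phamW a j = a i * v ∧ phamW a i = a j * v := by
    intro i j hij
    refine ⟨∏ k ∈ (Finset.univ.erase j).erase i, a k, Finset.prod_pos fun k _ => ha k,
      phamW_eq a hij, ?_⟩
    rw [phamW_eq a hij.symm, Finset.erase_right_comm]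
  constructor
  · rintro ⟨i, j, hj, hc⟩
    have hij : i ≠ j := by
      rintro rfl
      exact hc 1 (by simp)
    refine ⟨i, j, hij, hj, fun c h => ?_⟩
    obtain ⟨v, hv, h1, h2⟩ := key i j hij
    apply hc (c ^ v)
    rw [h1, h2, pow_mul, pow_mul, h, mul_pow, C_pow]
  · rintro ⟨i, j, hij, hj, hc⟩
    refine ⟨i, j, hj, fun c h => ?_⟩
    obtain ⟨v, hv, h1, h2⟩ := key i j hij
    rw [h1, h2, pow_mul, pow_mul] at h
    obtain ⟨c', hc'⟩ := prop_of_pow hv h
    exact hc c' hc'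

theorem aeval_pham (a : Fin n → ℕ) (γ : Fin n → ℂ[X]) :
    MvPolynomial.aeval γ (pham a) = ∑ i, γ i ^ a i := by
  simp [pham]

theorem no_pair (U : Fin n → ℂ[X]) (V : ℂ[X]) (h : ∀ i, ∃ κ : ℂ, U i = C κ * V) {i j : Fin n}
    (hj : U j ≠ 0) : ∃ c : ℂ, U i = C c * U j := by
  obtain ⟨κ, hκ⟩ := h i
  obtain ⟨μ, hμ⟩ := h j
  have hμ0 : μ ≠ 0 := by rintro rfl; rw [C_0, zero_mul] at hμ; exact hj hμ
  refine ⟨κ / μ, ?_⟩
  rw [hκ, hμ, ← mul_assoc, ← C_mul, div_mul_cancel₀ _ hμ0]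

/-- The classification of the Pham–Brieskorn hypersurfaces with an exotic polynomial curve. -/
theorem pham_exotic_iff (a : Fin n → ℕ) (ha : ∀ i, 0 < a i) :
    HasExoticCurve (Hyp (pham a)) ↔ 4 ≤ n ∨ n = 3 ∧
      ((∃ i, ∀ j, j ≠ i → (a i).Coprime (a j)) ∨
        ((∀ i, 2 ∣ a i) ∧ ∀ i j, i ≠ j → (a i / 2).Coprime (a j / 2))) := by
  rw [exotic_iff (phamW a) (phamW_pos a ha) (pham a) _ (pham_hom a)]
  have hrw : (∃ γ : Fin n → ℂ[X], MvPolynomial.aeval γ (pham a) = 0 ∧ NC (phamW a) γ) ↔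
      ∃ γ : Fin n → ℂ[X], ∑ i, γ i ^ a i = 0 ∧
        ∃ i j, i ≠ j ∧ γ j ≠ 0 ∧ ∀ c : ℂ, γ i ^ a i ≠ C c * γ j ^ a j := by
    refine exists_congr fun γ => ?_
    rw [aeval_pham, NC_pham_iff a ha]
  rw [hrw]
  rcases n with _ | _ | _ | _ | n
  · simp
  · constructor
    · rintro ⟨γ, -, i, j, hij, -⟩
      exact absurd (Fin.ext (by omega)) hij
    · intro h; omega
  · constructor
    · rintro ⟨γ, hs, i, j, hij, hj, hc⟩
      exfalso
      rw [Fin.sum_univ_two] at hs
      obtain ⟨c, hc'⟩ := no_pair (fun k => γ k ^ a k) (γ 0 ^ a 0) (i := i) (j := j) (by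
        intro k
        fin_cases k
        · exact ⟨1, by simp⟩
        · refine ⟨-1, ?_⟩
          change γ 1 ^ a 1 = _
          rw [C_neg, C_1]; linear_combination hs) (pow_ne_zero _ hj)
      exact hc c hc'
    · intro h; omega
  · have hcond : ((∃ i, ∀ j, j ≠ i → (a i).Coprime (a j)) ∨
        ((∀ i, 2 ∣ a i) ∧ ∀ i j, i ≠ j → (a i / 2).Coprime (a j / 2)))
        ↔ Cond (a 0) (a 1) (a 2) := by
      unfold Cond
      constructor
      · rintro (⟨i, hi⟩ | ⟨h2, h⟩)
        · fin_cases i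
          · left; exact ⟨hi 1 (by decide), hi 2 (by decide)⟩
          · right; left; exact ⟨hi 0 (by decide), hi 2 (by decide)⟩
          · right; right; left; exact ⟨hi 0 (by decide), hi 1 (by decide)⟩
        · right; right; right
          exact ⟨⟨h2 0, h2 1, h2 2⟩, h 0 1 (by decide), h 0 2 (by decide), h 1 2 (by decide)⟩
      · rintro (⟨h1, h2⟩ | ⟨h1, h2⟩ | ⟨h1, h2⟩ | ⟨⟨h1, h2, h3⟩, h4, h5, h6⟩)
        · left; refine ⟨0, fun j hj => ?_⟩
          fin_cases j
          · exact absurd rfl hj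
          · exact h1
          · exact h2
        · left; refine ⟨1, fun j hj => ?_⟩
          fin_cases j
          · exact h1
          · exact absurd rfl hj
          · exact h2
        · left; refine ⟨2, fun j hj => ?_⟩
          fin_cases j
          · exact h1
          · exact h2
          · exact absurd rfl hj
        · right
          refine ⟨fun i => by fin_cases i <;> assumption, fun i j hij => ?_⟩
          fin_cases i <;> fin_cases j
          · exact absurd rfl hij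
          · exact h4
          · exact h5
          · exact h4.symm
          · exact absurd rfl hij
          · exact h6
          · exact h5.symm
          · exact h6.symm
          · exact absurd rfl hij
    have hsol : (∃ γ : Fin 3 → ℂ[X], ∑ i, γ i ^ a i = 0 ∧
        ∃ i j, i ≠ j ∧ γ j ≠ 0 ∧ ∀ c : ℂ, γ i ^ a i ≠ C c * γ j ^ a j)
        ↔ Sol (a 0) (a 1) (a 2) := by
      constructor
      · rintro ⟨γ, hs, i, j, hij, hj, hc⟩
        rw [Fin.sum_univ_three] at hs
        have hno : ∀ V : ℂ[X], ¬ ∀ k, ∃ κ : ℂ, γ k ^ a k = C κ * V := by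
          intro V hV
          obtain ⟨c, hc'⟩ := no_pair (fun k => γ k ^ a k) V hV (i := i) (j := j)
            (pow_ne_zero _ hj)
          exact hc c hc'
        have h0 : γ 0 ≠ 0 := by
          intro h
          rw [h, zero_pow (ha 0).ne'] at hs
          refine hno (γ 1 ^ a 1) fun k => ?_
          fin_cases k
          · exact ⟨0, by simp [h, (ha 0).ne']⟩
          · exact ⟨1, by simp⟩
          · refine ⟨-1, ?_⟩
            change γ 2 ^ a 2 = _
            rw [C_neg, C_1]; linear_combination hs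
        have h1 : γ 1 ≠ 0 := by
          intro h
          rw [h, zero_pow (ha 1).ne'] at hs
          refine hno (γ 0 ^ a 0) fun k => ?_
          fin_cases k
          · exact ⟨1, by simp⟩
          · exact ⟨0, by simp [h, (ha 1).ne']⟩
          · refine ⟨-1, ?_⟩
            change γ 2 ^ a 2 = _
            rw [C_neg, C_1]; linear_combination hs
        have h2 : γ 2 ≠ 0 := by
          intro h
          rw [h, zero_pow (ha 2).ne'] at hs
          refine hno (γ 0 ^ a 0) fun k => ?_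
          fin_cases k
          · exact ⟨1, by simp⟩
          · refine ⟨-1, ?_⟩
            change γ 1 ^ a 1 = _
            rw [C_neg, C_1]; linear_combination hs
          · exact ⟨0, by simp [h, (ha 2).ne']⟩
        refine ⟨γ 0, γ 1, γ 2, h0, h1, h2, hs, fun κ hκ => hno (γ 2 ^ a 2) fun k => ?_⟩
        fin_cases k
        · exact ⟨κ, hκ⟩
        · refine ⟨-(1 + κ), ?_⟩
          change γ 1 ^ a 1 = _
          rw [C_neg, C_add, C_1]; linear_combination hs - hκ
        · exact ⟨1, by simp⟩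
      · rintro ⟨f, g, h, hf, hg, hh, hsum, hk⟩
        refine ⟨![f, g, h], ?_, 0, 2, by decide, by simpa using hh, ?_⟩
        · rw [Fin.sum_univ_three]
          simpa using hsum
        · simpa using hk
    rw [hsol, hcond]
    constructor
    · intro h
      exact Or.inr ⟨rfl, cond_of_sol (ha 0) (ha 1) (ha 2) h⟩
    · rintro (h | ⟨-, h⟩)
      · omega
      · exact sol_of_cond (ha 0) (ha 1) (ha 2) h
  · constructor
    · intro _; left; omega
    · intro _
      set i₀ : Fin (n + 1 + 1 + 1 + 1) := 0 with hi₀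
      set i₁ : Fin (n + 1 + 1 + 1 + 1) := Fin.succ 0 with hi₁
      set i₂ : Fin (n + 1 + 1 + 1 + 1) := Fin.succ (Fin.succ 0) with hi₂
      set i₃ : Fin (n + 1 + 1 + 1 + 1) := Fin.succ (Fin.succ (Fin.succ 0)) with hi₃
      obtain ⟨ζ, hζ⟩ := IsAlgClosed.exists_pow_nat_eq (-1 : ℂ) (ha i₁)
      obtain ⟨η, hη⟩ := IsAlgClosed.exists_pow_nat_eq (-1 : ℂ) (ha i₃)
      obtain ⟨γ, g0, g1, g2, g3, g4⟩ : ∃ γ : Fin (n + 1 + 1 + 1 + 1) → ℂ[X],
          γ i₀ = X ^ a i₁ ∧ γ i₁ = C ζ * X ^ a i₀ ∧ γ i₂ = 1 ∧ γ i₃ = C η ∧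
            ∀ k : Fin n, γ (Fin.succ (Fin.succ (Fin.succ (Fin.succ k)))) = 0 :=
        ⟨Fin.cons (X ^ a i₁) (Fin.cons (C ζ * X ^ a i₀) (Fin.cons 1 (Fin.cons (C η)
          fun _ => 0))), by rw [hi₀, Fin.cons_zero], by rw [hi₁, Fin.cons_succ, Fin.cons_zero],
          by rw [hi₂, Fin.cons_succ, Fin.cons_succ, Fin.cons_zero],
          by rw [hi₃, Fin.cons_succ, Fin.cons_succ, Fin.cons_succ, Fin.cons_zero],
          fun k => by rw [Fin.cons_succ, Fin.cons_succ, Fin.cons_succ, Fin.cons_succ]⟩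
      refine ⟨γ, ?_, i₀, i₂, ?_, ?_, ?_⟩
      · rw [Fin.sum_univ_succ, Fin.sum_univ_succ, Fin.sum_univ_succ, Fin.sum_univ_succ]
        rw [← hi₀, ← hi₁, ← hi₂, ← hi₃, g0, g1, g2, g3]
        have hz : (∑ k : Fin n, γ (Fin.succ (Fin.succ (Fin.succ (Fin.succ k))))
            ^ a (Fin.succ (Fin.succ (Fin.succ (Fin.succ k))))) = 0 :=
          Finset.sum_eq_zero fun k _ => by rw [g4 k, zero_pow (ha _).ne']
        rw [hz, mul_pow, ← C_pow, hζ, ← C_pow, hη, ← pow_mul, ← pow_mul, one_pow,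
          mul_comm (a i₀) (a i₁), C_neg, C_1]
        ring
      · rw [hi₀, hi₂]
        exact (Fin.succ_ne_zero _).symm
      · rw [g2]; exact one_ne_zero
      · intro c hc
        rw [g0, g2, one_pow, mul_one, ← pow_mul] at hc
        have h1 := congrArg Polynomial.natDegree hc
        rw [natDegree_X_pow, natDegree_C] at h1
        exact (Nat.mul_pos (ha i₁) (ha i₀)).ne' h1

end Pool.Agent.H750E
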